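import Pool.Agent.H12.LN.Vec

/-! # The abstract steps -/

set_option autoImplicit false
set_option linter.unusedSectionVars false

noncomputable section

namespace Pool.Agent.H12.LN

open MeasureTheory Pool.Agent.H5R2.ON Pool.Agent.H717R2.ON3 Pool.Agent.H983R2.ONJ
open Pool.Agent.Q218.ON (EN ax)

variable {N L : ℕ} [NeZero L]

theorem Wv_splice (c : Tor L × Tor L → ℝ) (φ : Tor L → ℝ) {Λ' : Finset (Tor L)}
    (hloc : ∀ e : Tor L × Tor L, e.1 ∈ Λ' ∨ e.2 ∈ Λ' → c e * (φ e.1 - φ e.2) = 0)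
    (p : Fin N) (S η : Conf N L) : Wv c φ p (splice Λ' S η) = Wv c φ p η := by
  unfold Wv
  refine Finset.sum_congr rfl fun e _ => ?_
  by_cases h : e.1 ∈ Λ' ∨ e.2 ∈ Λ'
  · rw [hloc e h, zero_smul, zero_smul]
  · push Not at h
    unfold splice
    simp only [h.1, h.2, if_false]

theorem gH_congr (H : Conf N L → ℝ) (Λ : Finset (Tor L)) (η : Conf N L)
    {F G : Conf N L → ℝ} (h : ∀ S, F (splice Λ S η) = G (splice Λ S η)) :
    gH H Λ η F = gH H Λ η G := by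
  unfold gH
  simp only [h]

theorem cc_eq (i : Fin N) (s : Sph N) : cc i s = (s : EN N) i := rfl

theorem cont_cc (i : Fin N) (z : Tor L) : Continuous fun S : Conf N L => cc i (S z) := by
  unfold cc
  fun_prop

/-- square of the product with an outer vector -/
theorem sq_infl (hN : N ≠ 0) (c : Tor L × Tor L → ℝ) {Λ' Λ : Finset (Tor L)} (h : Λ' ⊆ Λ)
    (η : Conf N L) (z : Tor L) (u : ℝ)
    (hu : ∀ (η' : Conf N L) (i : Fin N), gH (pS c) Λ' η' (fun S => cc i (S z) ^ 2) ≤ u)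
    {V : Conf N L → EN N} (hV : Continuous V) (hVl : ∀ S η', V (splice Λ' S η') = V η') :
    ∫ S, (inner ℝ (V S) (S z : EN N)) ^ 2 ∂(GM c Λ η) ≤ u * ∫ S, ‖V S‖ ^ 2 ∂(GM c Λ η) := by
  have i0 : Fin N := ⟨0, Nat.pos_of_ne_zero hN⟩
  have hF : Continuous fun S : Conf N L => (inner ℝ (V S) (S z : EN N)) ^ 2 := by fun_prop
  have hG : Continuous fun S : Conf N L => u * ‖V S‖ ^ 2 := by fun_prop
  rw [← integral_const_mul, ← gH_eq hN c Λ η hF.measurable, ← gH_eq hN c Λ η hG.measurable]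
  refine tower_le hN c h η hF hG fun η' => ?_
  obtain ⟨η'', hη''⟩ := gH_dir hN c Λ' η' (V η') i0 z
  have e1 : gH (pS c) Λ' η' (fun S => (inner ℝ (V S) (S z : EN N)) ^ 2) =
      gH (pS c) Λ' η' (fun S => (ax (V η') (S z)) ^ 2) :=
    gH_congr _ _ _ fun S => by
      rw [hVl]
      rfl
  have e2 : gH (pS c) Λ' η' (fun S => u * ‖V S‖ ^ 2) =
      gH (pS c) Λ' η' (fun _ => u * ‖V η'‖ ^ 2) :=
    gH_congr _ _ _ fun S => by rw [hVl]
  rw [e1, e2, gH_const hN (continuous_pS c), hη'' (fun x => x ^ 2)]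
  have e3 : (fun S : Conf N L => (‖V η'‖ * cc i0 (S z)) ^ 2) =
      fun S : Conf N L => ‖V η'‖ ^ 2 * cc i0 (S z) ^ 2 := by
    funext S
    ring
  rw [e3, gH_smul, mul_comm u]
  exact mul_le_mul_of_nonneg_left (hu _ _) (by positivity)

/-- product with an outer vector -/
theorem lin_infl (hN : N ≠ 0) (c : Tor L × Tor L → ℝ) {Λ' Λ : Finset (Tor L)} (h : Λ' ⊆ Λ)
    (η : Conf N L) (z : Tor L) (m : ℝ)
    (hm : ∀ (η' : Conf N L) (i : Fin N), |gH (pS c) Λ' η' (fun S => cc i (S z))| ≤ m)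
    {V : Conf N L → EN N} (hV : Continuous V) (hVl : ∀ S η', V (splice Λ' S η') = V η') :
    |∫ S, inner ℝ (V S) (S z : EN N) ∂(GM c Λ η)| ≤ m * ∫ S, ‖V S‖ ∂(GM c Λ η) := by
  have i0 : Fin N := ⟨0, Nat.pos_of_ne_zero hN⟩
  have key : ∀ t : ℝ, (t = 1 ∨ t = -1) →
      ∫ S, t * inner ℝ (V S) (S z : EN N) ∂(GM c Λ η) ≤ ∫ S, m * ‖V S‖ ∂(GM c Λ η) := by
    intro t ht
    have hF : Continuous fun S : Conf N L => t * inner ℝ (V S) (S z : EN N) := by fun_prop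
    have hG : Continuous fun S : Conf N L => m * ‖V S‖ := by fun_prop
    rw [← gH_eq hN c Λ η hF.measurable, ← gH_eq hN c Λ η hG.measurable]
    refine tower_le hN c h η hF hG fun η' => ?_
    obtain ⟨η'', hη''⟩ := gH_dir hN c Λ' η' (V η') i0 z
    have e1 : gH (pS c) Λ' η' (fun S => t * inner ℝ (V S) (S z : EN N)) =
        gH (pS c) Λ' η' (fun S => t * ax (V η') (S z)) :=
      gH_congr _ _ _ fun S => by
        rw [hVl]
        rfl
    have e2 : gH (pS c) Λ' η' (fun S => m * ‖V S‖) =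
        gH (pS c) Λ' η' (fun _ => m * ‖V η'‖) :=
      gH_congr _ _ _ fun S => by rw [hVl]
    rw [e1, e2, gH_const hN (continuous_pS c), hη'' (fun x => t * x)]
    have e3 : (fun S : Conf N L => t * (‖V η'‖ * cc i0 (S z))) =
        fun S : Conf N L => (‖V η'‖ * t) * cc i0 (S z) := by
      funext S
      ring
    rw [e3, gH_smul, mul_comm m, mul_assoc]
    refine mul_le_mul_of_nonneg_left ?_ (norm_nonneg _)
    have h1 := abs_le.1 (hm η'' i0)
    rcases ht with rfl | rfl <;> linarith [h1.1, h1.2]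
  have h1 := key 1 (Or.inl rfl)
  have h2 := key (-1) (Or.inr rfl)
  rw [integral_const_mul, integral_const_mul] at h1 h2
  rw [abs_le]
  constructor <;> linarith

/-- the abstract square step -/
theorem absB (hN : N ≠ 0) {φ : Tor L → ℝ} {Λ' Λ : Finset (Tor L)} (h : Λ' ⊆ Λ)
    (hφ : ∀ x, x ∉ Λ → φ x = 0) (c : Tor L × Tor L → ℝ) (η : Conf N L) (p : Fin N) {z : Tor L}
    (hz : φ z = 1) (hloc : ∀ e : Tor L × Tor L, e.1 ∈ Λ' ∨ e.2 ∈ Λ' → c e * (φ e.1 - φ e.2) = 0)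
    (u ι : ℝ) (hu0 : 0 ≤ u)
    (hu : ∀ (η' : Conf N L) (i : Fin N), gH (pS c) Λ' η' (fun S => cc i (S z) ^ 2) ≤ u)
    (hι : ∫ S, ‖Wv c φ p S‖ ^ 2 ∂(GM c Λ η) ≤ ι) :
    ((N : ℝ) * ∫ S, (S z : EN N) p ^ 2 ∂(GM c Λ η) - 1) ^ 2 ≤
      (∫ S, (S z : EN N) p ^ 2 ∂(GM c Λ η)) * (u * ι) := by
  rw [wardB hN hφ c η p hz, neg_sq]
  have h1 := cs (GM c Λ η) (f := fun S : Conf N L => (S z : EN N) p)
    (g := fun S => inner ℝ (Wv c φ p S) (S z : EN N)) (intC hN c Λ η (by fun_prop))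
    (intC hN c Λ η (by fun_prop)) (intC hN c Λ η (by fun_prop))
  refine h1.trans (mul_le_mul_of_nonneg_left ?_ (integral_nonneg fun S => sq_nonneg _))
  refine (sq_infl hN c h η z u hu (cont_Wv c φ p) fun S η' => Wv_splice c φ hloc p S η').trans ?_
  exact mul_le_mul_of_nonneg_left hι hu0

/-- the abstract vector step -/
theorem absA (hN : N ≠ 0) {φ : Tor L → ℝ} {Λ' Λ : Finset (Tor L)} (h : Λ' ⊆ Λ)
    (hφ : ∀ x, x ∉ Λ → φ x = 0) (c : Tor L × Tor L → ℝ) (η : Conf N L) (p : Fin N) {z : Tor L}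
    (hz : φ z = 1) (hloc : ∀ e : Tor L × Tor L, e.1 ∈ Λ' ∨ e.2 ∈ Λ' → c e * (φ e.1 - φ e.2) = 0)
    (m ι : ℝ) (hm0 : 0 ≤ m)
    (hm : ∀ (η' : Conf N L) (i : Fin N), |gH (pS c) Λ' η' (fun S => cc i (S z))| ≤ m)
    (hι : ∫ S, ‖Wv c φ p S‖ ^ 2 ∂(GM c Λ η) ≤ ι) :
    ((N : ℝ) - 1) * |∫ S, (S z : EN N) p ∂(GM c Λ η)| ≤ m * √ι := by
  have hprob := GM_prob hN c Λ η
  have hN1 : (0 : ℝ) ≤ N - 1 := by
    have : (1 : ℝ) ≤ N := by exact_mod_cast Nat.one_le_iff_ne_zero.2 hN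
    linarith
  have h1 := wardA hN hφ c η p hz
  have h2 : ((N : ℝ) - 1) * |∫ S, (S z : EN N) p ∂(GM c Λ η)| =
      |∫ S, inner ℝ (Wv c φ p S) (S z : EN N) ∂(GM c Λ η)| := by
    rw [← abs_neg (∫ S, inner ℝ (Wv c φ p S) (S z : EN N) ∂(GM c Λ η)), ← h1, abs_mul,
      abs_of_nonneg hN1]
  rw [h2]
  refine (lin_infl hN c h η z m hm (cont_Wv c φ p)
    fun S η' => Wv_splice c φ hloc p S η').trans ?_
  refine mul_le_mul_of_nonneg_left ?_ hm0
  refine Real.le_sqrt_of_sq_le (le_trans ?_ hι)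
  have h3 := cs (GM c Λ η) (f := fun S : Conf N L => ‖Wv c φ p S‖)
    (g := fun _ => (1 : ℝ)) (intC hN c Λ η (by fun_prop))
    (intC hN c Λ η (by fun_prop)) (intC hN c Λ η (by fun_prop))
  simp only [mul_one, one_pow] at h3
  rw [E_one hN, mul_one] at h3
  exact h3

/-- monotonicity of the influence -/
theorem sq_mono (hN : N ≠ 0) (c : Tor L × Tor L → ℝ) {Λ' Λ : Finset (Tor L)} (h : Λ' ⊆ Λ)
    (z : Tor L) (i : Fin N) (u : ℝ)
    (hu : ∀ η' : Conf N L, gH (pS c) Λ' η' (fun S => cc i (S z) ^ 2) ≤ u) (η : Conf N L) :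
    gH (pS c) Λ η (fun S => cc i (S z) ^ 2) ≤ u := by
  have h1 := tower_le hN c h η (F := fun S => cc i (S z) ^ 2) (G := fun _ => u)
    ((cont_cc i z).pow 2) continuous_const fun η' => by
      rw [gH_const hN (continuous_pS c)]
      exact hu η'
  rwa [gH_const hN (continuous_pS c)] at h1

theorem lin_mono (hN : N ≠ 0) (c : Tor L × Tor L → ℝ) {Λ' Λ : Finset (Tor L)} (h : Λ' ⊆ Λ)
    (z : Tor L) (i : Fin N) (m : ℝ)
    (hm : ∀ η' : Conf N L, |gH (pS c) Λ' η' (fun S => cc i (S z))| ≤ m) (η : Conf N L) :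
    |gH (pS c) Λ η (fun S => cc i (S z))| ≤ m := by
  have h1 := tower_le hN c h η (F := fun S => cc i (S z)) (G := fun _ => m)
    (cont_cc i z) continuous_const fun η' => by
      rw [gH_const hN (continuous_pS c)]
      exact (abs_le.1 (hm η')).2
  have h2 := tower_le hN c h η (F := fun S => -1 * cc i (S z)) (G := fun _ => m)
    (continuous_const.mul (cont_cc i z)) continuous_const fun η' => by
      rw [gH_const hN (continuous_pS c), gH_smul]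
      linarith [(abs_le.1 (hm η')).1]
  rw [gH_const hN (continuous_pS c)] at h1
  rw [gH_const hN (continuous_pS c), gH_smul] at h2
  rw [abs_le]
  constructor <;> linarith

/-- the energy bound -/
theorem iota_le (hN : 2 ≤ N) {φ : Tor L → ℝ} {Λ : Finset (Tor L)}
    (hφ : ∀ x, x ∉ Λ → φ x = 0) (c : Tor L × Tor L → ℝ) (hc : ∀ e, 0 ≤ c e) (η : Conf N L)
    (p : Fin N) (u : ℝ)
    (hu : ∀ e : Tor L × Tor L, c e * (φ e.1 - φ e.2) ≠ 0 →
      ∫ S, (S e.1 : EN N) p ^ 2 ∂(GM c Λ η) ≤ u ∧ ∫ S, (S e.2 : EN N) p ^ 2 ∂(GM c Λ η) ≤ u) :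
    ∫ S, ‖Wv c φ p S‖ ^ 2 ∂(GM c Λ η) ≤
      (∑ e, c e * (φ e.1 - φ e.2) ^ 2) * (((N : ℝ) - 2) * u + 1) := by
  have hN0 : N ≠ 0 := by omega
  have hN2 : (0 : ℝ) ≤ N - 2 := by
    have : (2 : ℝ) ≤ N := by exact_mod_cast hN
    linarith
  rw [wardC hN0 hφ c η p, Finset.sum_mul]
  refine Finset.sum_le_sum fun e _ => ?_
  by_cases h : c e * (φ e.1 - φ e.2) = 0
  · have h1 : c e * (φ e.1 - φ e.2) ^ 2 = 0 := by
      rw [pow_two, ← mul_assoc, h, zero_mul]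
    rw [h1, zero_mul, zero_mul]
  · obtain ⟨hx, hy⟩ := hu e h
    refine mul_le_mul_of_nonneg_left ?_ (mul_nonneg (hc e) (sq_nonneg _))
    refine add_le_add (mul_le_mul_of_nonneg_left ?_ hN2) ?_
    · have h1 : ∫ S, (S e.1 : EN N) p * (S e.2 : EN N) p ∂(GM c Λ η) ≤
          ∫ S, ((1 / 2) * (S e.1 : EN N) p ^ 2 + (1 / 2) * (S e.2 : EN N) p ^ 2) ∂(GM c Λ η) := by
        refine E_mono hN0 c Λ η (by fun_prop) (by fun_prop) fun S => ?_
        nlinarith [sq_nonneg ((S e.1 : EN N) p - (S e.2 : EN N) p)]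
      rw [E_add hN0 c Λ η (fun S => (1 / 2) * (S e.1 : EN N) p ^ 2)
        (fun S => (1 / 2) * (S e.2 : EN N) p ^ 2) (by fun_prop) (by fun_prop),
        integral_const_mul, integral_const_mul] at h1
      linarith
    · have h1 : ∫ S, inner ℝ (S e.1 : EN N) (S e.2 : EN N) ∂(GM c Λ η) ≤
          ∫ _, (1 : ℝ) ∂(GM c Λ η : Measure (Conf N L)) := by
        refine E_mono hN0 c Λ η (by fun_prop) (by fun_prop) fun S => ?_
        refine (real_inner_le_norm _ _).trans ?_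
        rw [spin_norm, spin_norm, one_mul]
      rwa [E_one hN0] at h1

end Pool.Agent.H12.LN
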