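import Pool.Agent.H36.MG.SymB
import Pool.Graph.R_seed8.H348R2.ONJ.Gib2

/-! # Finite volume Gibbs measures: tower property, Cauchy-Schwarz, rotations -/

set_option autoImplicit false
set_option linter.unusedSectionVars false

noncomputable section

namespace Pool.Agent.H12.LN

open MeasureTheory Pool.Agent.H5R2.ON Pool.Agent.H717R2.ON3 Pool.Agent.H983R2.ONJ

open Pool.Agent.Q218.ON (EN rot rot_coe rotC pS_rotC ax)
open Pool.Agent.H36.MG (cov rotC_splice)

variable {N L : ℕ} [NeZero L]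

/-- the finite volume Gibbs measure -/
def GM (c : Tor L × Tor L → ℝ) (Λ : Finset (Tor L)) (η : Conf N L) : Measure (Conf N L) :=
  ((prior N L).withDensity fun S => ENNReal.ofReal
    (Real.exp (pS c (splice Λ S η)) / ∫ S, Real.exp (pS c (splice Λ S η)) ∂(prior N L))).map
      fun S => splice Λ S η

theorem cont_splice (Λ : Finset (Tor L)) (η : Conf N L) :
    Continuous (fun S : Conf N L => splice Λ S η) := gib2_continuous_splice Λ η

theorem cont_exp (c : Tor L × Tor L → ℝ) : Continuous fun S : Conf N L => Real.exp (pS c S) :=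
  Real.continuous_exp.comp (continuous_pS c)

theorem Z_pos (hN : N ≠ 0) (c : Tor L × Tor L → ℝ) (Λ : Finset (Tor L)) (η : Conf N L) :
    0 < ∫ S, Real.exp (pS c (splice Λ S η)) ∂(prior N L) :=
  Aux348.Z_pos hN (continuous_pS c) Λ η

theorem meas_dens (c : Tor L × Tor L → ℝ) (Λ : Finset (Tor L)) (η : Conf N L) (Z : ℝ) :
    Measurable fun S : Conf N L => ENNReal.ofReal
      (Real.exp (pS c (splice Λ S η)) / Z) := by
  refine ENNReal.measurable_ofReal.comp ?_
  exact (((cont_exp c).comp (cont_splice Λ η)).div_const _).measurable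

/-- expectations as integrals -/
theorem gH_eq (hN : N ≠ 0) (c : Tor L × Tor L → ℝ) (Λ : Finset (Tor L)) (η : Conf N L)
    {F : Conf N L → ℝ} (hF : Measurable F) :
    gH (pS c) Λ η F = ∫ S, F S ∂(GM c Λ η) := by
  have hZ := Z_pos hN c Λ η
  unfold GM gH
  rw [integral_map (cont_splice Λ η).measurable.aemeasurable hF.aestronglyMeasurable]
  rw [integral_withDensity_eq_integral_toReal_smul (meas_dens c Λ η _)
    (Filter.Eventually.of_forall fun S => ENNReal.ofReal_lt_top)]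
  rw [← integral_div]
  refine integral_congr_ae (Filter.Eventually.of_forall fun S => ?_)
  simp only
  rw [ENNReal.toReal_ofReal (div_nonneg (Real.exp_pos _).le hZ.le), smul_eq_mul]
  ring

theorem GM_prob (hN : N ≠ 0) (c : Tor L × Tor L → ℝ) (Λ : Finset (Tor L)) (η : Conf N L) :
    IsProbabilityMeasure (GM c Λ η) := by
  have hZ := Z_pos hN c Λ η
  haveI := prior_isProbabilityMeasure N L hN
  have h1 : IsProbabilityMeasure ((prior N L).withDensity fun S => ENNReal.ofReal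
    (Real.exp (pS c (splice Λ S η)) / ∫ S, Real.exp (pS c (splice Λ S η)) ∂(prior N L))) := by
    constructor
    rw [withDensity_apply _ MeasurableSet.univ, Measure.restrict_univ]
    rw [← ofReal_integral_eq_lintegral_ofReal]
    · rw [integral_div, div_self hZ.ne', ENNReal.ofReal_one]
    · exact (integrable_prior N L ((cont_exp c).comp (cont_splice Λ η))).div_const _
    · exact Filter.Eventually.of_forall fun S => div_nonneg (Real.exp_pos _).le hZ.le
  unfold GM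
  exact Measure.isProbabilityMeasure_map (cont_splice Λ η).measurable.aemeasurable

theorem intC (hN : N ≠ 0) (c : Tor L × Tor L → ℝ) (Λ : Finset (Tor L)) (η : Conf N L)
    {F : Conf N L → ℝ} (hF : Continuous F) : Integrable F (GM c Λ η) := by
  haveI := GM_prob hN c Λ η
  exact hF.integrable_of_hasCompactSupport (HasCompactSupport.of_compactSpace F)

theorem E_sum (hN : N ≠ 0) (c : Tor L × Tor L → ℝ) (Λ : Finset (Tor L)) (η : Conf N L)
    {ι : Type} (s : Finset ι) (F : ι → Conf N L → ℝ) (hF : ∀ i, Continuous (F i)) :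
    ∫ S, (∑ i ∈ s, F i S) ∂(GM c Λ η) = ∑ i ∈ s, ∫ S, F i S ∂(GM c Λ η) :=
  integral_finsetSum _ fun i _ => intC hN c Λ η (hF i)

theorem E_add (hN : N ≠ 0) (c : Tor L × Tor L → ℝ) (Λ : Finset (Tor L)) (η : Conf N L)
    (F G : Conf N L → ℝ) (hF : Continuous F) (hG : Continuous G) :
    ∫ S, (F S + G S) ∂(GM c Λ η) = ∫ S, F S ∂(GM c Λ η) + ∫ S, G S ∂(GM c Λ η) :=
  integral_add (intC hN c Λ η hF) (intC hN c Λ η hG)

theorem E_sub (hN : N ≠ 0) (c : Tor L × Tor L → ℝ) (Λ : Finset (Tor L)) (η : Conf N L)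
    (F G : Conf N L → ℝ) (hF : Continuous F) (hG : Continuous G) :
    ∫ S, (F S - G S) ∂(GM c Λ η) = ∫ S, F S ∂(GM c Λ η) - ∫ S, G S ∂(GM c Λ η) :=
  integral_sub (intC hN c Λ η hF) (intC hN c Λ η hG)

theorem E_mono (hN : N ≠ 0) (c : Tor L × Tor L → ℝ) (Λ : Finset (Tor L)) (η : Conf N L)
    {F G : Conf N L → ℝ} (hF : Continuous F) (hG : Continuous G) (h : ∀ S, F S ≤ G S) :
    ∫ S, F S ∂(GM c Λ η) ≤ ∫ S, G S ∂(GM c Λ η) :=
  integral_mono (intC hN c Λ η hF) (intC hN c Λ η hG) h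

theorem E_one (hN : N ≠ 0) (c : Tor L × Tor L → ℝ) (Λ : Finset (Tor L)) (η : Conf N L)
    (a : ℝ) : ∫ _, a ∂(GM c Λ η : Measure (Conf N L)) = a := by
  have := GM_prob hN c Λ η
  simp

/-- tower property (as an inequality) -/
theorem tower_le (hN : N ≠ 0) (c : Tor L × Tor L → ℝ) {Λ' Λ : Finset (Tor L)} (h : Λ' ⊆ Λ)
    (η : Conf N L) {F G : Conf N L → ℝ} (hF : Continuous F) (hG : Continuous G)
    (hle : ∀ η' : Conf N L, gH (pS c) Λ' η' F ≤ gH (pS c) Λ' η' G) :
    gH (pS c) Λ η F ≤ gH (pS c) Λ η G := by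
  have hZ := Z_pos hN c Λ η
  have hc1 : ∀ {K : Conf N L → ℝ}, Continuous K → Continuous (fun S : Conf N L =>
      K (splice Λ S η) * Real.exp (pS c (splice Λ S η))) := fun hK =>
    (hK.comp (cont_splice Λ η)).mul ((cont_exp c).comp (cont_splice Λ η))
  obtain ⟨BF, hBF⟩ := gib2_bdd (hc1 hF)
  obtain ⟨BG, hBG⟩ := gib2_bdd (hc1 hG)
  obtain ⟨e1, i1⟩ := gib2_resample hN Λ' (hc1 hF).measurable _ hBF
  obtain ⟨e2, i2⟩ := gib2_resample hN Λ' (hc1 hG).measurable _ hBG
  unfold gH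
  refine div_le_div_of_nonneg_right ?_ hZ.le
  rw [e1, e2]
  refine integral_mono i1 i2 fun S => ?_
  simp only
  have hZ' := Z_pos hN c Λ' (splice Λ S η)
  have key : ∀ {K : Conf N L → ℝ}, ∫ S', K (splice Λ (splice Λ' S' S) η) *
      Real.exp (pS c (splice Λ (splice Λ' S' S) η)) ∂(prior N L) =
      gH (pS c) Λ' (splice Λ S η) K *
        ∫ S', Real.exp (pS c (splice Λ' S' (splice Λ S η))) ∂(prior N L) := by
    intro K
    unfold gH
    rw [div_mul_cancel₀ _ hZ'.ne']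
    refine integral_congr_ae (Filter.Eventually.of_forall fun S' => ?_)
    simp only
    rw [gib2_splice h]
  rw [key, key]
  exact mul_le_mul_of_nonneg_right (hle _) hZ'.le

/-- Cauchy-Schwarz -/
theorem cs {Ω : Type*} [MeasurableSpace Ω] (μ : Measure Ω) {f g : Ω → ℝ}
    (hff : Integrable (fun x => f x ^ 2) μ) (hfg : Integrable (fun x => f x * g x) μ)
    (hgg : Integrable (fun x => g x ^ 2) μ) :
    (∫ x, f x * g x ∂μ) ^ 2 ≤ (∫ x, f x ^ 2 ∂μ) * ∫ x, g x ^ 2 ∂μ := by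
  have h : ∀ t : ℝ, 0 ≤ (∫ x, g x ^ 2 ∂μ) * (t * t) + (-2 * ∫ x, f x * g x ∂μ) * t +
      ∫ x, f x ^ 2 ∂μ := by
    intro t
    have h1 : 0 ≤ ∫ x, (f x - t * g x) ^ 2 ∂μ := integral_nonneg fun x => sq_nonneg _
    have h2 : ∫ x, (f x - t * g x) ^ 2 ∂μ = (∫ x, f x ^ 2 ∂μ) + (-2 * t) * (∫ x, f x * g x ∂μ) +
        (t * t) * ∫ x, g x ^ 2 ∂μ := by
      have e : ∀ x, (f x - t * g x) ^ 2 = (f x ^ 2 + (-2 * t) * (f x * g x)) +
          (t * t) * g x ^ 2 := fun x => by ring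
      simp only [e]
      rw [integral_add (f := fun x => f x ^ 2 + (-2 * t) * (f x * g x))
        (hff.add (hfg.const_mul _)) (hgg.const_mul _), integral_add hff (hfg.const_mul _),
        integral_const_mul, integral_const_mul]
    rw [h2] at h1
    linarith
  have h2 := discrim_le_zero h
  unfold discrim at h2
  nlinarith

/-- covariance of the Gibbs expectations -/
theorem gH_cov (hN : N ≠ 0) (c : Tor L × Tor L → ℝ) (Λ : Finset (Tor L)) (η : Conf N L)
    (Q : EN N ≃ₗᵢ[ℝ] EN N) (F : Conf N L → ℝ) :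
    gH (pS c) Λ η (fun S => F (rotC Q S)) = gH (pS c) Λ (rotC Q η) F := by
  unfold gH
  have h1 := cov hN Q Λ η (fun S => F S * Real.exp (pS c S))
  have h2 := cov hN Q Λ η (fun S => Real.exp (pS c S))
  simp only [pS_rotC] at h1 h2
  rw [h1, h2]

/-- an isometry with `⟨v, s⟩ = ‖v‖ (Q s)_i` -/
theorem exists_iso (v : EN N) (i : Fin N) : ∃ Q : EN N ≃ₗᵢ[ℝ] EN N,
    ∀ s : EN N, inner ℝ v s = ‖v‖ * (Q s) i := by
  classical
  have hb : ‖(EuclideanSpace.single i (1 : ℝ) : EN N)‖ = 1 := by simp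
  have hn : ‖v‖ = ‖‖v‖ • (EuclideanSpace.single i (1 : ℝ) : EN N)‖ := by
    rw [norm_smul, hb, mul_one, norm_norm]
  refine ⟨Submodule.reflection (ℝ ∙ (v - ‖v‖ • (EuclideanSpace.single i (1 : ℝ) : EN N)))ᗮ, ?_⟩
  intro s
  have h1 := Submodule.reflection_sub hn
  have h2 := (Submodule.reflection (ℝ ∙ (v - ‖v‖ • (EuclideanSpace.single i (1 : ℝ) : EN N)))ᗮ).inner_map_map
    v s
  rw [h1] at h2
  rw [← h2, real_inner_smul_left]
  congr 1
  rw [EuclideanSpace.inner_single_left]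
  simp

theorem gH_dir (hN : N ≠ 0) (c : Tor L × Tor L → ℝ) (Λ : Finset (Tor L)) (η : Conf N L)
    (v : EN N) (i : Fin N) (p : Tor L) : ∃ η' : Conf N L, ∀ f : ℝ → ℝ,
      gH (pS c) Λ η (fun S => f (ax v (S p))) =
        gH (pS c) Λ η' (fun S => f (‖v‖ * cc i (S p))) := by
  obtain ⟨Q, hQ⟩ := exists_iso v i
  refine ⟨rotC Q η, fun f => ?_⟩
  rw [← gH_cov hN c Λ η Q]
  congr 1
  funext S
  congr 1
  unfold ax cc rotC
  rw [rot_coe, hQ]

end Pool.Agent.H12.LN
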