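import Pool.Agent.H12.MG.Step

/-! # The finite size criterion -/

set_option autoImplicit false
set_option linter.unusedSectionVars false

noncomputable section

namespace Pool.Agent.H12.LN

open MeasureTheory Pool.Agent.H5R2.ON Pool.Agent.H717R2.ON3 Pool.Agent.H983R2.ONJ
open Pool.Agent.H983R2.ONJ.AuxFin269 Pool.Agent.Y13.QM

/-- **Finite size criterion**: if the influence of the boundary of a ball of radius `R / 4` on the
centre is small compared to `1 / (A R²)` then the correlations decay at rate `1 / R`. -/
theorem crit (a : ℝ) (ha : 0 < a) : ∃ P : ℝ, 0 < P ∧ ∀ A : ℝ, 0 ≤ A → ∀ N : ℕ, N ≠ 0 →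
    ∀ R : ℝ, 4 ≤ R → 2 / a ≤ R → ∀ m : ℝ, 0 ≤ m → MBJ N A a (R / 4) m →
      P * A * (m * R ^ 2 + R ^ 2 * Real.exp (-(a * R / 8))) ≤ 1 / 2 →
    ∀ (L : ℕ) [NeZero L] (c : Tor L × Tor L → ℝ), ExpC A a c → ∀ (x y : Tor L),
      corS (N := N) c x y ≤ Real.exp 2 * Real.exp (-(1 / R) * tnorm (x - y)) := by
  obtain ⟨K0, hK0, hK⟩ := card_ball_le
  obtain ⟨Kl, hKl0, hKl⟩ := lsum (a / 4) (by positivity)
  refine ⟨16 * Real.exp 1 * K0 * Kl, by positivity, ?_⟩
  intro A hA N hN0 R hR4 hRa m hm0 hMB hR' L _ c hc
  have hR : (16 * A * Real.exp 1 * K0 * Kl) * (m * R ^ 2 +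
      R ^ 2 * Real.exp (-(a * R / 8))) ≤ 1 / 2 := by
    refine le_trans (le_of_eq ?_) hR'
    ring
  have hR0 : 0 < R := by linarith
  obtain ⟨b, hb⟩ : ∃ b : ℝ, b = 1 / R := ⟨_, rfl⟩
  have hbR' : b = 1 / R := hb
  have hb0 : 0 < b := by rw [hb]; positivity
  have hba : b ≤ a / 2 := by
    rw [hbR', div_le_iff₀ hR0]
    rw [div_le_iff₀ ha] at hRa
    linarith
  have hbR : b * R ≤ 1 := by
    rw [hbR']
    exact (one_div_mul_cancel hR0.ne').le
  rw [← hb]
  have hc0 : ∀ e, 0 ≤ c e := fun e => (hc e).1
  by_cases hL : (L : ℝ) ≤ 2 * R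
  · intro x y
    have h1 := corS_le_one hN0 c x y
    have h2 : tnorm (x - y) ≤ 2 * R := (tnorm_le_L _).trans hL
    rw [← Real.exp_add]
    refine h1.trans (Real.one_le_exp ?_)
    nlinarith
  push Not at hL
  -- the maximum
  obtain ⟨q, -, hq⟩ := Finset.exists_max_image (Finset.univ : Finset (Tor L × Tor L))
    (fun q => corS (N := N) c q.1 q.2 * Real.exp (b * tnorm (q.1 - q.2))) ⟨(0, 0), Finset.mem_univ _⟩
  obtain ⟨M, hM⟩ : ∃ M : ℝ, M = corS (N := N) c q.1 q.2 * Real.exp (b * tnorm (q.1 - q.2)) :=
    ⟨_, rfl⟩
  have hmax : ∀ x y : Tor L, corS (N := N) c x y ≤ M * Real.exp (-(b * tnorm (x - y))) := by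
    intro x y
    have h1 := hq (x, y) (Finset.mem_univ _)
    simp only at h1
    rw [← hM] at h1
    rw [Real.exp_neg, ← div_eq_mul_inv, le_div_iff₀ (Real.exp_pos _)]
    exact h1
  have hM0 : 0 ≤ M := by
    rw [hM]
    exact mul_nonneg (corS_nonneg hN0 hc0 _ _) (Real.exp_pos _).le
  -- it is at most `e`
  have hMe : M ≤ Real.exp 1 := by
    obtain ⟨p, y⟩ := q
    simp only at hM
    by_cases hpy : tnorm (p - y) ≤ R
    · rw [hM]
      have h1 := corS_le_one hN0 c p y
      have h2 : Real.exp (b * tnorm (p - y)) ≤ Real.exp 1 := by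
        refine Real.exp_le_exp.mpr ?_
        nlinarith
      have h3 := corS_nonneg hN0 hc0 p y
      have h4 := Real.exp_pos (b * tnorm (p - y))
      nlinarith
    · push Not at hpy
      have hyp : R < tnorm (y - p) := by rw [tnorm_sub_comm]; exact hpy
      have hexit := corS_exit hN0 hc0 p y R m hR0 hyp hm0 (fun η i =>
        hMB L (by linarith) c hc p η i)
      -- one term
      obtain ⟨g, hg⟩ : ∃ g : Tor L → ℝ, g = fun z => Real.exp (-(a / 4) * tnorm z) := ⟨_, rfl⟩
      have hg0 : ∀ z, 0 ≤ g z := fun z => by rw [hg]; exact (Real.exp_pos _).le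
      have hgsum : ∑ z : Tor L, g z ≤ Kl := by
        refine (Finset.sum_le_sum fun z _ => ?_).trans (hKl L)
        rw [hg]
        simp only
        have h1 : (1 : ℝ) ≤ (1 + tnorm z) ^ 2 := by
          have := tnorm_nonneg z
          nlinarith
        have h2 := Real.exp_pos (-(a / 4) * tnorm z)
        nlinarith
      have hterm : ∀ w ∈ ball p R, ∀ w' ∈ (ball p R)ᶜ,
          2 * (c (w, w') + c (w', w)) * (if tnorm (w - p) ≤ R / 2 then 1 else m) *
            corS (N := N) c w' y * Real.exp (b * tnorm (p - y)) ≤
          4 * A * Real.exp 1 * M * ((m + Real.exp (-(a * R / 8))) * g (w' - w)) := by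
        intro w hw w' hw'
        simp only [ball, Finset.mem_filter, Finset.mem_univ, true_and, Finset.mem_compl,
          not_le] at hw hw'
        obtain ⟨t, ht⟩ : ∃ t : ℝ, t = tnorm (w' - w) := ⟨_, rfl⟩
        have ht0 : 0 ≤ t := by rw [ht]; exact tnorm_nonneg _
        -- the couplings
        have h1 : c (w, w') ≤ A * Real.exp (-a * t) := by rw [ht]; exact (hc (w, w')).2
        have h2 : c (w', w) ≤ A * Real.exp (-a * t) := by
          rw [ht, tnorm_sub_comm]; exact (hc (w', w)).2
        have h3 : 0 ≤ c (w, w') + c (w', w) := add_nonneg (hc0 _) (hc0 _)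
        -- the factor
        obtain ⟨f, hf⟩ : ∃ f : ℝ, f = (if tnorm (w - p) ≤ R / 2 then 1 else m) := ⟨_, rfl⟩
        rw [← hf]
        have hf0 : 0 ≤ f := by
          rw [hf]
          split_ifs
          · exact zero_le_one
          · exact hm0
        have hfg : f * Real.exp (-(a / 2) * t) ≤
            (m + Real.exp (-(a * R / 8))) * Real.exp (-(a / 4) * t) := by
          by_cases h : tnorm (w - p) ≤ R / 2
          · rw [hf, if_pos h, one_mul]
            have h4 : R / 2 ≤ t := by
              have := tnorm_add_le (w' - w) (w - p)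
              rw [sub_add_sub_cancel] at this
              rw [ht]
              linarith
            have h5 : Real.exp (-(a / 2) * t) ≤
                Real.exp (-(a * R / 8)) * Real.exp (-(a / 4) * t) := by
              rw [← Real.exp_add]
              refine Real.exp_le_exp.mpr ?_
              nlinarith
            refine h5.trans (mul_le_mul_of_nonneg_right ?_ (Real.exp_pos _).le)
            linarith
          · rw [hf, if_neg h]
            refine mul_le_mul ?_ ?_ (Real.exp_pos _).le ?_
            · have := Real.exp_pos (-(a * R / 8))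
              linarith
            · refine Real.exp_le_exp.mpr ?_
              nlinarith
            · have := Real.exp_pos (-(a * R / 8))
              linarith
        -- the triangle inequality
        have h6 : tnorm (p - y) ≤ R + t + tnorm (w' - y) := by
          have e1 := tnorm_add_le (p - w) (w - y)
          have e2 := tnorm_add_le (w - w') (w' - y)
          rw [sub_add_sub_cancel] at e1 e2
          rw [tnorm_sub_comm p w] at e1
          rw [tnorm_sub_comm w w'] at e2
          rw [ht]
          linarith
        have h7 : Real.exp (b * tnorm (p - y)) ≤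
            Real.exp 1 * Real.exp ((a / 2) * t) * Real.exp (b * tnorm (w' - y)) := by
          rw [← Real.exp_add, ← Real.exp_add]
          refine Real.exp_le_exp.mpr ?_
          nlinarith
        have h8 := hmax w' y
        have h9 := corS_nonneg hN0 hc0 w' y
        have h10 : corS (N := N) c w' y * Real.exp (b * tnorm (p - y)) ≤
            M * (Real.exp 1 * Real.exp ((a / 2) * t)) := by
          calc corS (N := N) c w' y * Real.exp (b * tnorm (p - y))
              ≤ (M * Real.exp (-(b * tnorm (w' - y)))) *
                (Real.exp 1 * Real.exp ((a / 2) * t) * Real.exp (b * tnorm (w' - y))) :=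
                mul_le_mul h8 h7 (Real.exp_pos _).le (by positivity)
            _ = M * (Real.exp 1 * Real.exp ((a / 2) * t)) *
                (Real.exp (-(b * tnorm (w' - y))) * Real.exp (b * tnorm (w' - y))) := by ring
            _ = M * (Real.exp 1 * Real.exp ((a / 2) * t)) := by
                have h12 : Real.exp (-(b * tnorm (w' - y))) * Real.exp (b * tnorm (w' - y)) = 1 := by
                  rw [← Real.exp_add, neg_add_cancel, Real.exp_zero]
                rw [h12, mul_one]
        have hgw : g (w' - w) = Real.exp (-(a / 4) * t) := by rw [hg, ht]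
        rw [hgw]
        have h11 : Real.exp (-a * t) * Real.exp ((a / 2) * t) = Real.exp (-(a / 2) * t) := by
          rw [← Real.exp_add]
          congr 1
          ring
        calc 2 * (c (w, w') + c (w', w)) * f * corS (N := N) c w' y * Real.exp (b * tnorm (p - y))
            = (2 * (c (w, w') + c (w', w)) * f) *
              (corS (N := N) c w' y * Real.exp (b * tnorm (p - y))) := by ring
          _ ≤ (4 * (A * Real.exp (-a * t)) * f) *
              (M * (Real.exp 1 * Real.exp ((a / 2) * t))) := by
              refine mul_le_mul ?_ h10 (mul_nonneg h9 (Real.exp_pos _).le) (by positivity)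
              refine mul_le_mul_of_nonneg_right ?_ hf0
              linarith
          _ = 4 * A * Real.exp 1 * M *
              (f * (Real.exp (-a * t) * Real.exp ((a / 2) * t))) := by ring
          _ = 4 * A * Real.exp 1 * M * (f * Real.exp (-(a / 2) * t)) := by rw [h11]
          _ ≤ 4 * A * Real.exp 1 * M *
              ((m + Real.exp (-(a * R / 8))) * Real.exp (-(a / 4) * t)) :=
              mul_le_mul_of_nonneg_left hfg (by positivity)
      -- the sum
      have hsum : M ≤ 4 * A * Real.exp 1 * M *
          ((m + Real.exp (-(a * R / 8))) * (K0 * (1 + R) ^ 2 * Kl)) := by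
        have hmE : 0 ≤ m + Real.exp (-(a * R / 8)) := by
          have := Real.exp_pos (-(a * R / 8))
          linarith
        calc M = corS (N := N) c p y * Real.exp (b * tnorm (p - y)) := hM
          _ ≤ (∑ w ∈ ball p R, ∑ w' ∈ (ball p R)ᶜ,
              2 * (c (w, w') + c (w', w)) * (if tnorm (w - p) ≤ R / 2 then 1 else m) *
              corS (N := N) c w' y) * Real.exp (b * tnorm (p - y)) :=
              mul_le_mul_of_nonneg_right hexit (Real.exp_pos _).le
          _ = ∑ w ∈ ball p R, ∑ w' ∈ (ball p R)ᶜ,
              2 * (c (w, w') + c (w', w)) * (if tnorm (w - p) ≤ R / 2 then 1 else m) *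
              corS (N := N) c w' y * Real.exp (b * tnorm (p - y)) := by
              rw [Finset.sum_mul]
              exact Finset.sum_congr rfl fun w _ => Finset.sum_mul _ _ _
          _ ≤ ∑ w ∈ ball p R, ∑ w' ∈ (ball p R)ᶜ,
              4 * A * Real.exp 1 * M * ((m + Real.exp (-(a * R / 8))) * g (w' - w)) :=
              Finset.sum_le_sum fun w hw => Finset.sum_le_sum fun w' hw' => hterm w hw w' hw'
          _ ≤ ∑ w ∈ ball p R,
              4 * A * Real.exp 1 * M * ((m + Real.exp (-(a * R / 8))) * Kl) := by
              refine Finset.sum_le_sum fun w _ => ?_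
              rw [← Finset.mul_sum, ← Finset.mul_sum]
              refine mul_le_mul_of_nonneg_left (mul_le_mul_of_nonneg_left ?_ hmE) (by positivity)
              calc ∑ w' ∈ (ball p R)ᶜ, g (w' - w) ≤ ∑ w' : Tor L, g (w' - w) :=
                    Finset.sum_le_univ_sum_of_nonneg fun w' => hg0 _
                _ = ∑ z : Tor L, g z := sum_shift g w
                _ ≤ Kl := hgsum
          _ = ((ball p R).card : ℝ) *
              (4 * A * Real.exp 1 * M * ((m + Real.exp (-(a * R / 8))) * Kl)) := by
              rw [Finset.sum_const, nsmul_eq_mul]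
          _ ≤ (K0 * (1 + R) ^ 2) *
              (4 * A * Real.exp 1 * M * ((m + Real.exp (-(a * R / 8))) * Kl)) := by
              refine mul_le_mul_of_nonneg_right (hK L p R hR0.le) (by positivity)
          _ = _ := by ring
      have hcoef : 4 * A * Real.exp 1 *
          ((m + Real.exp (-(a * R / 8))) * (K0 * (1 + R) ^ 2 * Kl)) ≤ 1 / 2 := by
        refine le_trans ?_ hR
        have hE := Real.exp_pos (-(a * R / 8))
        have h1 : (1 + R) ^ 2 ≤ 4 * R ^ 2 := by nlinarith
        have h2 : 4 * A * Real.exp 1 *
            ((m + Real.exp (-(a * R / 8))) * (K0 * (1 + R) ^ 2 * Kl)) ≤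
            4 * A * Real.exp 1 *
            ((m + Real.exp (-(a * R / 8))) * (K0 * (4 * R ^ 2) * Kl)) := by
          gcongr
        refine h2.trans (le_of_eq ?_)
        ring
      have hfin : M ≤ 1 / 2 * M := by
        calc M ≤ 4 * A * Real.exp 1 * M *
              ((m + Real.exp (-(a * R / 8))) * (K0 * (1 + R) ^ 2 * Kl)) := hsum
          _ = (4 * A * Real.exp 1 *
              ((m + Real.exp (-(a * R / 8))) * (K0 * (1 + R) ^ 2 * Kl))) * M := by ring
          _ ≤ 1 / 2 * M := mul_le_mul_of_nonneg_right hcoef hM0
      have := Real.exp_pos 1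
      linarith
  intro x y
  refine (hmax x y).trans ?_
  rw [neg_mul]
  refine mul_le_mul_of_nonneg_right (hMe.trans ?_) (Real.exp_pos _).le
  exact Real.exp_le_exp.mpr (by norm_num)

end Pool.Agent.H12.LN
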