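import Pool.Agent.H12.LN.Iter
import Pool.Agent.H12.LN.Crit

/-! # Exponential decay -/

set_option autoImplicit false
set_option linter.unusedSectionVars false

noncomputable section

namespace Pool.Agent.H12.LN

open MeasureTheory Pool.Agent.H5R2.ON Pool.Agent.H717R2.ON3 Pool.Agent.H983R2.ONJ
open Pool.Agent.H983R2.ONJ.Aux993 Pool.Agent.Y13.QM

/-- decay of the influence beyond the isotropy scale -/
theorem mdecay (a : ℝ) (ha : 0 < a) : ∃ K1 C1 : ℝ, 8 ≤ K1 ∧ 1 ≤ C1 ∧ ∀ A : ℝ, 1 ≤ A → ∀ N : ℕ,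
    3 ≤ N → ∀ z : ℝ, z = K1 * √A / N → z ≤ 1 → ∀ ρ : ℝ,
    Real.exp (C1 * (1 + A / N)) * (1 + Real.log N) ^ 9 ≤ ρ → ∀ j : ℕ,
      MBJ N A a (ρ * 8 ^ j) (z ^ j) := by
  obtain ⟨K, C, hK, hC, hstep⟩ := mstep a ha
  obtain ⟨C1, hC1, hiso⟩ := iso_scale a ha
  obtain ⟨K3, hK3, herr⟩ := errN a C 1 ha hC zero_le_one
  have hsK : 1 ≤ √K := Real.one_le_sqrt.2 hK
  refine ⟨8 * √K, C1 + K3, by linarith, by linarith, ?_⟩
  intro A hA N hN z hz hz1 ρ hρ
  have hN0 : N ≠ 0 := by omega
  have hNpos : (0 : ℝ) < N := by exact_mod_cast Nat.pos_of_ne_zero hN0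
  have hN1 : (1 : ℝ) ≤ N := by exact_mod_cast (by omega : 1 ≤ N)
  have hN3 : (3 : ℝ) ≤ N := by exact_mod_cast hN
  have hlN : 0 ≤ Real.log N := Real.log_nonneg hN1
  have hA0 : 0 ≤ A := by linarith
  obtain ⟨b, hb⟩ : ∃ b : ℝ, b = 1 + A / N := ⟨_, rfl⟩
  have hb1 : 1 ≤ b := by
    rw [hb]
    have : 0 ≤ A / N := by positivity
    linarith
  have hsA : 1 ≤ √A := Real.one_le_sqrt.2 hA
  have hKA1 : 1 ≤ √K * √A := one_le_mul_of_one_le_of_one_le hsK hsA
  have hz0 : 8 / N ≤ z := by
    rw [hz]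
    refine div_le_div_of_nonneg_right ?_ hNpos.le
    rw [mul_assoc]
    linarith
  have hzpos : 0 < z := lt_of_lt_of_le (by positivity) hz0
  have hρ1 : Real.exp (C1 * (1 + A / N)) * (1 + Real.log N) ^ 9 ≤ ρ := by
    refine le_trans (mul_le_mul_of_nonneg_right (Real.exp_le_exp.2 ?_) (by positivity)) hρ
    rw [← hb]
    exact mul_le_mul_of_nonneg_right (by linarith) (by linarith)
  have hρ2 : K3 * ((1 + A / N) + Real.log N) ≤ ρ := by
    refine le_trans ?_ hρ
    rw [← hb]
    have h1 : (C1 + K3) * b ≤ Real.exp ((C1 + K3) * b) := by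
      have := Real.add_one_le_exp ((C1 + K3) * b)
      linarith
    have h2 : 1 + Real.log N ≤ (1 + Real.log N) ^ 9 := le_self_pow₀ (by linarith) (by norm_num)
    calc K3 * (b + Real.log N) ≤ ((C1 + K3) * b) * (1 + Real.log N) := by
          have h3 : K3 * b ≤ (C1 + K3) * b := mul_le_mul_of_nonneg_right (by linarith) (by linarith)
          have h4 : K3 ≤ K3 * b := le_mul_of_one_le_right (by linarith) hb1
          have h5 := mul_le_mul_of_nonneg_right (h4.trans h3) hlN
          have e1 : ((C1 + K3) * b) * (1 + Real.log N) = (C1 + K3) * b +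
            (C1 + K3) * b * Real.log N := by ring
          have e2 : K3 * (b + Real.log N) = K3 * b + K3 * Real.log N := by ring
          rw [e1, e2]
          exact add_le_add h3 h5
      _ ≤ _ := mul_le_mul h1 h2 (by linarith) (Real.exp_pos _).le
  have hρpos : 1 ≤ ρ := by
    refine le_trans ?_ hρ2
    rw [← hb]
    exact one_le_mul_of_one_le_of_one_le hK3 (by linarith)
  intro j
  induction j with
  | zero =>
    rw [pow_zero, pow_zero, mul_one]
    exact st_MBJ_one N hN A a ρ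
  | succ j ih =>
    have h8 : (1 : ℝ) + j ≤ 8 ^ j := by
      have := one_add_mul_le_pow (a := (7 : ℝ)) (by norm_num) j
      have e : (1 + 7 : ℝ) = 8 := by norm_num
      rw [e] at this
      have hj : (0 : ℝ) ≤ j := Nat.cast_nonneg j
      linarith
    have h81 : (1 : ℝ) ≤ 8 ^ j := one_le_pow₀ (by norm_num)
    have hr1 : ρ ≤ ρ * 8 ^ j := le_mul_of_one_le_right (by linarith) h81
    have hU : UBJ N A a (ρ * 8 ^ j) (3 / N) :=
      hiso A hA0 N (by omega) _ (hρ1.trans hr1)
    have hs := hstep A hA0 N (by omega) (ρ * 8 ^ j) (by linarith) (z ^ j) (by positivity) hU ih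
    refine MBJ_monoR hN0 hs ?_ ?_
    · have he : 2 * (Real.exp 1 + 1) ≤ 8 := by
        have := Real.exp_one_lt_d9
        linarith
      have h9 := mul_le_mul_of_nonneg_left he (by positivity : 0 ≤ ρ * 8 ^ j)
      have e1 : 2 * (ρ * 8 ^ j) * (Real.exp 1 + 1) = ρ * 8 ^ j * (2 * (Real.exp 1 + 1)) := by ring
      have e2 : ρ * 8 ^ (j + 1) = ρ * 8 ^ j * 8 := by rw [pow_succ]; ring
      rw [e1, e2]
      exact h9
    · have hfac : √(4 * K * A) / ((N : ℝ) - 1) ≤ z / 2 := by
        have e1 : √(4 * K * A) = 2 * √K * √A := by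
          rw [Real.sqrt_mul (by positivity), Real.sqrt_mul (by norm_num),
            show (4 : ℝ) = 2 ^ 2 by norm_num, Real.sqrt_sq (by norm_num)]
        rw [e1, hz, div_le_iff₀ (by linarith), div_div, div_mul_eq_mul_div,
          le_div_iff₀ (by positivity)]
        have h0 : 0 ≤ √K * √A := by positivity
        have e2 : 2 * √K * √A * ((N : ℝ) * 2) = 4 * ((√K * √A) * N) := by ring
        have e3 : 8 * √K * √A * ((N : ℝ) - 1) = (√K * √A) * (8 * (N - 1)) := by ring
        rw [e2, e3]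
        have h1 := mul_le_mul_of_nonneg_left (by linarith : (4 : ℝ) * N ≤ 8 * (N - 1)) h0
        linarith
      have herr' : Real.exp (C * (1 + A) * (2 * (ρ * 8 ^ j) * (Real.exp 1 + 1)) ^ 2 *
          Real.exp (-(a / 2) * (ρ * 8 ^ j))) - 1 ≤ z ^ (j + 1) / 2 := by
        have h1 := (herr N (by omega) A hA0 (ρ * 8 ^ j) (hρ2.trans hr1) 1 (by
          rw [← hb]; push_cast; linarith)).2.1
        rw [Nat.cast_one] at h1
        refine h1.trans ?_
        have h2 := (herr N (by omega) A hA0 ρ hρ2 1 (by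
          rw [← hb]; push_cast; linarith)).2.2
        have h3 : Real.exp (-(a / 8) * (ρ * 8 ^ j)) ≤ (1 / (N : ℝ)) ^ (j + 1) := by
          calc Real.exp (-(a / 8) * (ρ * 8 ^ j)) ≤ Real.exp (-(a / 8) * ρ) ^ (j + 1) := by
                rw [← Real.exp_nat_mul]
                refine Real.exp_le_exp.2 ?_
                push_cast
                have h4 : 0 ≤ (a / 8) * ρ := by positivity
                have h5 := mul_le_mul_of_nonneg_left h8 h4
                have e1 : -(a / 8) * (ρ * 8 ^ j) = -((a / 8) * ρ * 8 ^ j) := by ring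
                have e2 : ((j : ℝ) + 1) * (-(a / 8) * ρ) = -((a / 8) * ρ * (1 + j)) := by ring
                rw [e1, e2]
                linarith
            _ ≤ _ := pow_le_pow_left₀ (Real.exp_pos _).le h2 _
        refine h3.trans ?_
        have h4 : (8 / (N : ℝ)) ^ (j + 1) ≤ z ^ (j + 1) := pow_le_pow_left₀ (by positivity) hz0 _
        have h5 : (8 / (N : ℝ)) ^ (j + 1) = 8 ^ (j + 1) * (1 / (N : ℝ)) ^ (j + 1) := by
          rw [← mul_pow]
          congr 1
          ring
        have h6 : (2 : ℝ) ≤ 8 ^ (j + 1) := by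
          rw [pow_succ]
          linarith
        have h7 : 0 ≤ (1 / (N : ℝ)) ^ (j + 1) := by positivity
        have h9 := mul_le_mul_of_nonneg_right h6 h7
        rw [← h5] at h9
        linarith
      have h1 : z ^ j * (√(4 * K * A) / ((N : ℝ) - 1)) ≤ z ^ j * (z / 2) :=
        mul_le_mul_of_nonneg_left hfac (by positivity)
      have h2 : z ^ j * (z / 2) + z ^ (j + 1) / 2 = z ^ (j + 1) := by
        rw [pow_succ]
        ring
      linarith

/-- **Exponential decay, uniformly in `N`.** -/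
theorem decLN (a : ℝ) (ha : 0 < a) : ∃ K : ℝ, 1 ≤ K ∧ ∀ A : ℝ, 1 ≤ A → ∀ N : ℕ, 3 ≤ N →
    K * A ≤ (N : ℝ) ^ 2 → ∀ (L : ℕ) [NeZero L] (c : Tor L × Tor L → ℝ), ExpC A a c →
    ∀ (x y : Tor L), corS (N := N) c x y ≤ Real.exp 2 *
      Real.exp (-(Real.exp (-(K * (1 + A / N))) / (1 + Real.log N) ^ 9) * tnorm (x - y)) := by
  obtain ⟨K1, C1, hK1, hC1, hmd⟩ := mdecay a ha
  obtain ⟨P, hP, hcrit⟩ := crit a ha
  obtain ⟨K3, hK3, herr⟩ := errN a P 1 ha hP zero_le_one
  obtain ⟨l, hl⟩ : ∃ l : ℝ, l = max 0 (Real.log (64 * P)) := ⟨_, rfl⟩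
  have hl0 : 0 ≤ l := by rw [hl]; exact le_max_left _ _
  have hl1 : 64 * P ≤ Real.exp l := by
    rw [← Real.exp_log (by positivity : 0 < 64 * P)]
    refine Real.exp_le_exp.2 ?_
    rw [hl]
    exact le_max_right _ _
  have hlK1 : 0 ≤ Real.log K1 := Real.log_nonneg (by linarith)
  obtain ⟨C2, hC2⟩ : ∃ C2 : ℝ, C2 = C1 + K3 + 2 / a := ⟨_, rfl⟩
  have h2a : 0 < 2 / a := by positivity
  obtain ⟨K5, hK5⟩ : ∃ K5 : ℝ, K5 = l + 60 + 40 * Real.log K1 + 2 * C2 := ⟨_, rfl⟩
  have hK50 : 60 ≤ K5 := by rw [hK5]; linarith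
  refine ⟨max (K1 ^ 2 * Real.exp 20) (C2 + 6 * K5 + 5), le_max_of_le_right (by linarith), ?_⟩
  intro A hA N hN hKA L _ c hc x y
  have hN0 : N ≠ 0 := by omega
  have hNpos : (0 : ℝ) < N := by exact_mod_cast Nat.pos_of_ne_zero hN0
  have hN1 : (1 : ℝ) ≤ N := by exact_mod_cast (by omega : 1 ≤ N)
  have hN3 : (3 : ℝ) ≤ N := by exact_mod_cast hN
  have hlN : 0 ≤ Real.log N := Real.log_nonneg hN1
  have hlN1 : 1 + Real.log N ≤ N := by
    have := Real.log_le_sub_one_of_pos hNpos
    linarith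
  have hA0 : 0 ≤ A := by linarith
  obtain ⟨b, hb⟩ : ∃ b : ℝ, b = 1 + A / N := ⟨_, rfl⟩
  have hb1 : 1 ≤ b := by
    rw [hb]
    have : 0 ≤ A / N := by positivity
    linarith
  have hAN : A ≤ b * N := by
    rw [hb, add_mul, div_mul_cancel₀ _ hNpos.ne']
    linarith
  have hsA : 1 ≤ √A := Real.one_le_sqrt.2 hA
  obtain ⟨z, hz⟩ : ∃ z : ℝ, z = K1 * √A / N := ⟨_, rfl⟩
  have hzpos : 0 < z := by rw [hz]; positivity
  have hz2 : z ^ 2 * N ^ 2 = K1 ^ 2 * A := by
    rw [hz, div_pow, mul_pow, Real.sq_sqrt hA0]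
    field_simp
  have hz10 : z ≤ Real.exp (-10) := by
    have h1 : K1 ^ 2 * Real.exp 20 * A ≤ (N : ℝ) ^ 2 :=
      (mul_le_mul_of_nonneg_right (le_max_left _ _) hA0).trans hKA
    have h2 : z ^ 2 ≤ Real.exp (-10) ^ 2 := by
      have e2 : Real.exp (-10) ^ 2 = Real.exp (-20) := by
        rw [← Real.exp_nat_mul]
        norm_num
      rw [e2]
      have h3 : Real.exp 20 * (z ^ 2 * N ^ 2) ≤ 1 * (N : ℝ) ^ 2 := by
        rw [hz2]
        linarith
      have h4 : Real.exp 20 * z ^ 2 ≤ 1 := by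
        have h5 : (0 : ℝ) < (N : ℝ) ^ 2 := by positivity
        rw [← mul_assoc] at h3
        exact le_of_mul_le_mul_right h3 h5
      rw [Real.exp_neg, ← one_div, le_div_iff₀ (Real.exp_pos _)]
      linarith
    exact le_of_sq_le_sq h2 (Real.exp_pos _).le
  have hz1 : z ≤ 1 := hz10.trans (Real.exp_le_one_iff.2 (by norm_num))
  obtain ⟨X, hX⟩ : ∃ X : ℝ, X = -Real.log z := ⟨_, rfl⟩
  have hzX : z = Real.exp (-X) := by rw [hX, neg_neg, Real.exp_log hzpos]
  have hX10 : 10 ≤ X := by
    rw [hzX] at hz10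
    have := Real.exp_le_exp.1 hz10
    linarith
  -- the bound for `log N`
  have hlogN : Real.log N ≤ 2 * X + 2 * Real.log K1 + b := by
    have h1 : N ≤ K1 ^ 2 * b / z ^ 2 := by
      rw [le_div_iff₀ (by positivity)]
      have h2 : (N * z ^ 2) * N ≤ (K1 ^ 2 * b) * N := by
        calc (N * z ^ 2) * N = z ^ 2 * N ^ 2 := by ring
          _ = K1 ^ 2 * A := hz2
          _ ≤ K1 ^ 2 * (b * N) := mul_le_mul_of_nonneg_left hAN (by positivity)
          _ = _ := by ring
      exact le_of_mul_le_mul_right h2 hNpos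
    have h2 := Real.log_le_log hNpos h1
    rw [Real.log_div (by positivity) (by positivity), Real.log_mul (by positivity) (by positivity),
      Real.log_pow, Real.log_pow] at h2
    have h3 := Real.log_le_sub_one_of_pos (by linarith : 0 < b)
    push_cast at h2
    rw [hX]
    linarith
  obtain ⟨ρ, hρ⟩ : ∃ ρ : ℝ, ρ = Real.exp (C2 * b) * (1 + Real.log N) ^ 9 := ⟨_, rfl⟩
  have hpow1 : 1 ≤ (1 + Real.log N) ^ 9 := one_le_pow₀ (by linarith)
  have hC2b : C2 * b ≤ Real.exp (C2 * b) := by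
    have := Real.add_one_le_exp (C2 * b)
    linarith
  have hC20 : 1 ≤ C2 := by rw [hC2]; linarith
  have hρC2 : C2 * b ≤ ρ := by
    rw [hρ]
    exact hC2b.trans (le_mul_of_one_le_right (Real.exp_pos _).le hpow1)
  have hρ1 : 1 ≤ ρ := (one_le_mul_of_one_le_of_one_le hC20 hb1).trans hρC2
  have hρiso : Real.exp (C1 * (1 + A / N)) * (1 + Real.log N) ^ 9 ≤ ρ := by
    rw [hρ, ← hb]
    refine mul_le_mul_of_nonneg_right (Real.exp_le_exp.2 ?_) (by positivity)
    rw [hC2]
    exact mul_le_mul_of_nonneg_right (by linarith) (by linarith)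
  have hρerr : K3 * ((1 + A / N) + Real.log N) ≤ ρ := by
    rw [hρ, ← hb]
    have h2 : 1 + Real.log N ≤ (1 + Real.log N) ^ 9 := le_self_pow₀ (by linarith) (by norm_num)
    calc K3 * (b + Real.log N) ≤ (C2 * b) * (1 + Real.log N) := by
          have h3 : K3 ≤ C2 := by rw [hC2]; linarith
          have h4 : K3 * b ≤ C2 * b := mul_le_mul_of_nonneg_right h3 (by linarith)
          have h5 : K3 ≤ C2 * b :=
            (le_mul_of_one_le_right (by linarith) hb1).trans h4
          have h6 := mul_le_mul_of_nonneg_right h5 hlN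
          have e1 : (C2 * b) * (1 + Real.log N) = C2 * b + C2 * b * Real.log N := by ring
          have e2 : K3 * (b + Real.log N) = K3 * b + K3 * Real.log N := by ring
          rw [e1, e2]
          exact add_le_add h4 h6
      _ ≤ _ := mul_le_mul hC2b h2 (by linarith) (Real.exp_pos _).le
  obtain ⟨s, hs⟩ : ∃ s : ℕ, s = ⌈2 * K5 * b⌉₊ := ⟨_, rfl⟩
  have hs1 : 2 * K5 * b ≤ s := by rw [hs]; exact Nat.le_ceil _
  have hs2 : (s : ℝ) ≤ 2 * K5 * b + 1 := by
    rw [hs]
    exact (Nat.ceil_lt_add_one (by positivity)).le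
  have h8s : (1 : ℝ) ≤ 8 ^ s := one_le_pow₀ (by norm_num)
  obtain ⟨R, hR⟩ : ∃ R : ℝ, R = 4 * (ρ * 8 ^ s) := ⟨_, rfl⟩
  have hRρ : 4 * ρ ≤ R := by
    rw [hR]
    have := le_mul_of_one_le_right (by linarith : 0 ≤ ρ) h8s
    linarith
  have hR4 : 4 ≤ R := by linarith
  have hRa : 2 / a ≤ R := by
    have h1 : 2 / a ≤ C2 * b := by
      have h3 : 2 / a ≤ C2 := by rw [hC2]; linarith
      exact h3.trans (le_mul_of_one_le_right (by linarith) hb1)
    linarith
  have hM : MBJ N A a (R / 4) (z ^ s) := by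
    have e1 : R / 4 = ρ * 8 ^ s := by rw [hR]; ring
    rw [e1]
    exact hmd A hA N hN z hz hz1 ρ hρiso s
  have hcond : P * A * (z ^ s * R ^ 2 + R ^ 2 * Real.exp (-(a * R / 8))) ≤ 1 / 2 := by
    rw [mul_add]
    have h1 : P * A * (R ^ 2 * Real.exp (-(a * R / 8))) ≤ 1 / 4 := by
      have h2 := herr N (by omega) A hA0 (ρ * 8 ^ s)
        (hρerr.trans (le_mul_of_one_le_right (by linarith) h8s)) 0 (by
          rw [← hb]; push_cast; linarith)
      have h3 := h2.1
      have h4 := h2.2.2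
      rw [Nat.cast_zero, Real.exp_zero] at h3
      have e1 : R ^ 2 = (2 * (ρ * 8 ^ s) * (1 + 1)) ^ 2 := by rw [hR]; ring
      have e2 : -(a * R / 8) = -(a / 2) * (ρ * 8 ^ s) := by rw [hR]; ring
      have h5 : 1 / (N : ℝ) ≤ 1 / 3 := one_div_le_one_div_of_le (by norm_num) hN3
      rw [e1, e2]
      calc P * A * ((2 * (ρ * 8 ^ s) * (1 + 1)) ^ 2 * Real.exp (-(a / 2) * (ρ * 8 ^ s)))
          ≤ P * (1 + A) * ((2 * (ρ * 8 ^ s) * (1 + 1)) ^ 2 *
            Real.exp (-(a / 2) * (ρ * 8 ^ s))) := by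
            gcongr
            linarith
        _ = P * (1 + A) * (2 * (ρ * 8 ^ s) * (1 + 1)) ^ 2 *
            Real.exp (-(a / 2) * (ρ * 8 ^ s)) := by ring
        _ ≤ 1 / 4 := by linarith
    have h2 : P * A * (z ^ s * R ^ 2) ≤ 1 / 4 := by
      have hAz : A ≤ z ^ 2 * N ^ 2 := by
        rw [hz2]
        exact le_mul_of_one_le_left hA0 (one_le_pow₀ (by linarith))
      have hρN : ρ ≤ Real.exp (C2 * b + 9 * Real.log N) := by
        rw [hρ, Real.exp_add]
        refine mul_le_mul_of_nonneg_left ?_ (Real.exp_pos _).le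
        have e3 : Real.exp (9 * Real.log N) = (N : ℝ) ^ 9 := by
          have : Real.exp (9 * Real.log N) = Real.exp (Real.log N) ^ 9 := by
            rw [← Real.exp_nat_mul]
            norm_num
          rw [this, Real.exp_log hNpos]
        rw [e3]
        exact pow_le_pow_left₀ (by linarith) hlN1 9
      have h64 : ((8 : ℝ) ^ s) ^ 2 ≤ Real.exp (5 * s) := by
        have e4 : Real.exp (5 * s) = Real.exp 5 ^ s := by
          rw [← Real.exp_nat_mul]
          congr 1
          ring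
        rw [e4, ← pow_mul, mul_comm s 2, pow_mul]
        refine pow_le_pow_left₀ (by norm_num) ?_ s
        have e5 : Real.exp 5 = Real.exp 1 ^ 5 := by
          rw [← Real.exp_nat_mul]
          norm_num
        rw [e5]
        have h6 : (2.7182818283 : ℝ) ≤ Real.exp 1 := Real.exp_one_gt_d9.le
        calc ((8 : ℝ) ^ 2) ≤ (2.7182818283 : ℝ) ^ 5 := by norm_num
          _ ≤ _ := pow_le_pow_left₀ (by norm_num) h6 5
      have hN2 : (N : ℝ) ^ 2 = Real.exp (2 * Real.log N) := by
        have : Real.exp (2 * Real.log N) = Real.exp (Real.log N) ^ 2 := by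
          rw [← Real.exp_nat_mul]
          norm_num
        rw [this, Real.exp_log hNpos]
      have hzs : z ^ s = Real.exp (-(s * X)) := by
        rw [hzX, ← Real.exp_nat_mul]
        congr 1
        ring
      have hz2' : z ^ 2 = Real.exp (-(2 * X)) := by
        rw [hzX, ← Real.exp_nat_mul]
        congr 1
        push_cast
        ring
      have e6 : R ^ 2 = 16 * ρ ^ 2 * ((8 : ℝ) ^ s) ^ 2 := by rw [hR]; ring
      have hρ2 : ρ ^ 2 ≤ Real.exp (2 * (C2 * b) + 18 * Real.log N) := by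
        refine (pow_le_pow_left₀ (by linarith) hρN 2).trans (le_of_eq ?_)
        rw [← Real.exp_nat_mul]
        congr 1
        push_cast
        ring
      calc P * A * (z ^ s * R ^ 2)
          ≤ P * (z ^ 2 * N ^ 2) * (z ^ s * (16 * Real.exp (2 * (C2 * b) + 18 * Real.log N) *
            Real.exp (5 * s))) := by
            rw [e6]
            gcongr
        _ = (64 * P) * Real.exp (-(2 * X) + 2 * Real.log N + -(s * X) +
            (2 * (C2 * b) + 18 * Real.log N) + 5 * s) / 4 := by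
            rw [hzs, hz2', hN2]
            simp only [Real.exp_add]
            ring
        _ ≤ Real.exp l * Real.exp (-(2 * X) + 2 * Real.log N + -(s * X) +
            (2 * (C2 * b) + 18 * Real.log N) + 5 * s) / 4 := by gcongr
        _ = Real.exp (l + (-(2 * X) + 2 * Real.log N + -(s * X) +
            (2 * (C2 * b) + 18 * Real.log N) + 5 * s)) / 4 := by rw [Real.exp_add l]
        _ ≤ 1 / 4 := by
            refine div_le_div_of_nonneg_right (Real.exp_le_one_iff.2 ?_) (by norm_num)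
            have hsX : K5 * b * X ≤ s * X / 2 := by
              have := mul_le_mul_of_nonneg_right hs1 (by linarith : 0 ≤ X)
              linarith
            have hs5 : (5 : ℝ) * s ≤ s * X / 2 := by
              have h9 : (0 : ℝ) ≤ s := Nat.cast_nonneg s
              have := mul_le_mul_of_nonneg_left hX10 h9
              linarith
            have hX1 : 1 ≤ X := by linarith
            have hbX : 1 ≤ b * X := one_le_mul_of_one_le_of_one_le hb1 hX1
            have hb_bX : b ≤ b * X := le_mul_of_one_le_right (by linarith) hX1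
            have hX_bX : X ≤ b * X := le_mul_of_one_le_left (by linarith) hb1
            have h7 : l + 20 * Real.log N + 2 * (C2 * b) ≤ K5 * b * X := by
              have h8 : l + 20 * (2 * X + 2 * Real.log K1 + b) + 2 * (C2 * b) ≤ K5 * b * X := by
                rw [hK5]
                have e1 : (l + 60 + 40 * Real.log K1 + 2 * C2) * b * X = l * (b * X) +
                  60 * (b * X) + 40 * (Real.log K1 * (b * X)) + 2 * (C2 * (b * X)) := by ring
                rw [e1]
                have g1 := mul_le_mul_of_nonneg_left hbX hl0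
                have g2 := mul_le_mul_of_nonneg_left hbX hlK1
                have g3 := mul_le_mul_of_nonneg_left hb_bX (by linarith : 0 ≤ C2)
                linarith
              linarith
            linarith
    linarith
  have hfin := hcrit A hA0 N hN0 R hR4 hRa (z ^ s) (by positivity) hM hcond L c hc x y
  refine hfin.trans (mul_le_mul_of_nonneg_left (Real.exp_le_exp.2 ?_) (Real.exp_pos _).le)
  rw [neg_mul, neg_mul]
  refine neg_le_neg (mul_le_mul_of_nonneg_right ?_ (tnorm_nonneg _))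
  rw [div_le_div_iff₀ (by positivity) (by linarith), one_mul]
  -- the size of `R`
  have h8 : (8 : ℝ) ^ s ≤ Real.exp (3 * s) := by
    have e4 : Real.exp (3 * s) = Real.exp 3 ^ s := by
      rw [← Real.exp_nat_mul]
      congr 1
      ring
    rw [e4]
    refine pow_le_pow_left₀ (by norm_num) ?_ s
    have e5 : Real.exp 3 = Real.exp 1 ^ 3 := by
      rw [← Real.exp_nat_mul]
      norm_num
    rw [e5]
    have h6 : (2.7182818283 : ℝ) ≤ Real.exp 1 := Real.exp_one_gt_d9.le
    calc (8 : ℝ) ≤ (2.7182818283 : ℝ) ^ 3 := by norm_num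
      _ ≤ _ := pow_le_pow_left₀ (by norm_num) h6 3
  have h4 : (4 : ℝ) ≤ Real.exp 2 := by
    have h3 := Real.quadratic_le_exp_of_nonneg (x := 2) (by norm_num)
    linarith
  have hRle : R ≤ Real.exp ((C2 + 6 * K5 + 5) * b) * (1 + Real.log N) ^ 9 := by
    rw [hR, hρ]
    calc 4 * (Real.exp (C2 * b) * (1 + Real.log N) ^ 9 * 8 ^ s)
        ≤ Real.exp 2 * (Real.exp (C2 * b) * (1 + Real.log N) ^ 9 * Real.exp (3 * s)) := by gcongr
      _ = Real.exp (2 + C2 * b + 3 * s) * (1 + Real.log N) ^ 9 := by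
          rw [Real.exp_add, Real.exp_add]
          ring
      _ ≤ _ := by
          refine mul_le_mul_of_nonneg_right (Real.exp_le_exp.2 ?_) (by positivity)
          have e1 : (C2 + 6 * K5 + 5) * b = C2 * b + 6 * (K5 * b) + 5 * b := by ring
          rw [e1]
          linarith
  calc Real.exp (-(max (K1 ^ 2 * Real.exp 20) (C2 + 6 * K5 + 5) * (1 + A / N))) * R
      ≤ Real.exp (-((C2 + 6 * K5 + 5) * b)) *
        (Real.exp ((C2 + 6 * K5 + 5) * b) * (1 + Real.log N) ^ 9) := by
        rw [← hb]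
        refine mul_le_mul (Real.exp_le_exp.2 (neg_le_neg ?_)) hRle (by linarith)
          (Real.exp_pos _).le
        exact mul_le_mul_of_nonneg_right (le_max_right _ _) (by linarith)
    _ = (Real.exp (-((C2 + 6 * K5 + 5) * b)) * Real.exp ((C2 + 6 * K5 + 5) * b)) *
        (1 + Real.log N) ^ 9 := by ring
    _ = (1 + Real.log N) ^ 9 := by
        rw [← Real.exp_add, neg_add_cancel, Real.exp_zero, one_mul]

end Pool.Agent.H12.LN
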