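import Pool.Agent.H12.LN.Base

/-! # Integration by parts for rotations with a profile -/

set_option autoImplicit false
set_option linter.unusedSectionVars false

noncomputable section

namespace Pool.Agent.H12.LN

open MeasureTheory Pool.Agent.H5R2.ON Pool.Agent.H717R2.ON3 Pool.Agent.H983R2.ONJ
open Pool.Agent.H12R2.ON (rotF rotF_p rotF_k rotF_o rotC_apply)
open Pool.Agent.Q218.ON (EN)

variable {N L : ℕ}

/-- rotation of the spins by the angles `t φ` in the plane of the coordinates `p`, `k` -/
def TT {p k : Fin N} (hpk : p ≠ k) (φ : Tor L → ℝ) (t : ℝ) (S : Conf N L) : Conf N L :=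
  Pool.Agent.H12R2.ON.rotC p k hpk (fun x => t * φ x) S

theorem TT_apply {p k : Fin N} (hpk : p ≠ k) (φ : Tor L → ℝ) (t : ℝ) (S : Conf N L) (u : Tor L) :
    (TT hpk φ t S u : EN N) = rotF p k (t * φ u) (S u) := by
  unfold TT
  rw [rotC_apply]

theorem rotF_zero {p k : Fin N} (v : EN N) : rotF p k 0 v = v := by
  ext i
  simp only [rotF, Real.cos_zero, Real.sin_zero]
  split_ifs with h1 h2
  · subst h1; simp
  · subst h2; simp
  · rfl

theorem TT_zero {p k : Fin N} (hpk : p ≠ k) (φ : Tor L → ℝ) (S : Conf N L) :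
    TT hpk φ 0 S = S := by
  funext u
  apply Subtype.ext
  rw [TT_apply, zero_mul, rotF_zero]

theorem TT_splice {p k : Fin N} (hpk : p ≠ k) {φ : Tor L → ℝ} {Λ : Finset (Tor L)}
    (hφ : ∀ x, x ∉ Λ → φ x = 0) (t : ℝ) (S η : Conf N L) :
    splice Λ (TT hpk φ t S) η = TT hpk φ t (splice Λ S η) := by
  funext u
  apply Subtype.ext
  rw [TT_apply]
  unfold splice
  by_cases h : u ∈ Λ
  · simp only [h, if_true]
    rw [TT_apply]
  · simp only [h, if_false]
    rw [hφ u h, mul_zero, rotF_zero]

/-- `F'` is the derivative of `F` along the rotation -/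
def HD {p k : Fin N} (hpk : p ≠ k) (φ : Tor L → ℝ) (F F' : Conf N L → ℝ) : Prop :=
  ∀ (t : ℝ) (S : Conf N L), HasDerivAt (fun s => F (TT hpk φ s S)) (F' (TT hpk φ t S)) t

section HD

variable {p k : Fin N} {hpk : p ≠ k} {φ : Tor L → ℝ}

theorem HD.congr {F F' G' : Conf N L → ℝ} (h : HD hpk φ F F') (e : ∀ S, F' S = G' S) :
    HD hpk φ F G' := fun t S => (h t S).congr_deriv (e _)

theorem HD.add {F F' G G' : Conf N L → ℝ} (h1 : HD hpk φ F F') (h2 : HD hpk φ G G') :
    HD hpk φ (fun S => F S + G S) (fun S => F' S + G' S) := fun t S => (h1 t S).add (h2 t S)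

theorem HD.sub {F F' G G' : Conf N L → ℝ} (h1 : HD hpk φ F F') (h2 : HD hpk φ G G') :
    HD hpk φ (fun S => F S - G S) (fun S => F' S - G' S) := fun t S => (h1 t S).sub (h2 t S)

theorem HD.mul {F F' G G' : Conf N L → ℝ} (h1 : HD hpk φ F F') (h2 : HD hpk φ G G') :
    HD hpk φ (fun S => F S * G S) (fun S => F' S * G S + F S * G' S) := fun t S =>
  (h1 t S).mul (h2 t S)

theorem HD.const_mul {F F' : Conf N L → ℝ} (a : ℝ) (h1 : HD hpk φ F F') :
    HD hpk φ (fun S => a * F S) (fun S => a * F' S) := fun t S => (h1 t S).const_mul a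

theorem HD.sum {ι : Type} (s : Finset ι) {F F' : ι → Conf N L → ℝ}
    (h : ∀ i ∈ s, HD hpk φ (F i) (F' i)) :
    HD hpk φ (fun S => ∑ i ∈ s, F i S) (fun S => ∑ i ∈ s, F' i S) := fun t S =>
  HasDerivAt.fun_sum fun i hi => h i hi t S

theorem HD.coord (u : Tor L) (i : Fin N) :
    HD hpk φ (fun S => (S u : EN N) i) (fun S => φ u * (if i = p then -(S u : EN N) k
      else if i = k then (S u : EN N) p else 0)) := by
  intro t S
  simp only [TT_apply]
  have hl : HasDerivAt (fun s : ℝ => s * φ u) (φ u) t := by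
    simpa using (hasDerivAt_id t).mul_const (φ u)
  by_cases h1 : i = p
  · subst h1
    simp only [if_true, rotF_p, rotF_k hpk]
    have := (((Real.hasDerivAt_cos (t * φ u)).comp t hl).mul_const ((S u : EN N) i)).sub
      (((Real.hasDerivAt_sin (t * φ u)).comp t hl).mul_const ((S u : EN N) k))
    refine this.congr_deriv ?_
    ring
  · by_cases h2 : i = k
    · subst h2
      simp only [h1, if_false, if_true, rotF_p, rotF_k hpk]
      have := (((Real.hasDerivAt_sin (t * φ u)).comp t hl).mul_const ((S u : EN N) p)).add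
        (((Real.hasDerivAt_cos (t * φ u)).comp t hl).mul_const ((S u : EN N) i))
      refine this.congr_deriv ?_
      ring
    · simp only [h1, h2, if_false, rotF_o h1 h2, mul_zero]
      exact hasDerivAt_const _ _

theorem HD.coord_p (u : Tor L) :
    HD hpk φ (fun S => (S u : EN N) p) (fun S => -(φ u * (S u : EN N) k)) := by
  refine (HD.coord (hpk := hpk) (φ := φ) u p).congr fun S => ?_
  rw [if_pos rfl]
  ring

theorem HD.coord_k (u : Tor L) :
    HD hpk φ (fun S => (S u : EN N) k) (fun S => φ u * (S u : EN N) p) := by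
  refine (HD.coord (hpk := hpk) (φ := φ) u k).congr fun S => ?_
  rw [if_neg hpk.symm, if_pos rfl]

theorem inner_sum' (a b : EN N) : inner ℝ a b = ∑ i, a i * b i := by
  rw [PiLp.inner_apply]
  refine Finset.sum_congr rfl fun i _ => ?_
  simp [mul_comm]

theorem HD.innr (u v : Tor L) :
    HD hpk φ (fun S => inner ℝ (S u : EN N) (S v : EN N)) (fun S => (φ u - φ v) *
      ((S u : EN N) p * (S v : EN N) k - (S u : EN N) k * (S v : EN N) p)) := by
  have h0 : (fun S : Conf N L => inner ℝ (S u : EN N) (S v : EN N)) =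
      fun S : Conf N L => ∑ i, (S u : EN N) i * (S v : EN N) i := by
    funext S
    exact inner_sum' _ _
  rw [h0]
  refine (HD.sum Finset.univ fun i _ =>
    (HD.coord (hpk := hpk) (φ := φ) u i).mul (HD.coord v i)).congr fun S => ?_
  generalize (S u : EN N) = a
  generalize (S v : EN N) = b
  have key : ∀ (r : ℝ) (a b : EN N),
      ∑ i, (r * (if i = p then -a k else if i = k then a p else 0)) * b i =
        r * (a p * b k - a k * b p) := by
    intro r a b
    have : ∀ i, (r * (if i = p then -a k else if i = k then a p else 0)) * b i =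
        (if i = p then -(r * a k * b p) else 0) + (if i = k then r * a p * b k else 0) := by
      intro i
      by_cases h1 : i = p
      · subst h1; simp [hpk]
      · by_cases h2 : i = k
        · subst h2; simp [h1]
        · simp [h1, h2]
    rw [Finset.sum_congr rfl fun i _ => this i, Finset.sum_add_distrib]
    simp
    ring
  rw [Finset.sum_add_distrib, key]
  have key2 : ∑ i, a i * (φ v * (if i = p then -b k else if i = k then b p else 0)) =
      -(φ v * (a p * b k - a k * b p)) := by
    have := key (φ v) b a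
    rw [Finset.sum_congr rfl fun i _ => mul_comm _ _, this]
    ring
  rw [key2]
  ring

end HD

variable [NeZero L]

/-- the score -/
def Wk (c : Tor L × Tor L → ℝ) (φ : Tor L → ℝ) (p k : Fin N) (S : Conf N L) : ℝ :=
  ∑ e, c e * ((φ e.1 - φ e.2) *
    ((S e.1 : EN N) p * (S e.2 : EN N) k - (S e.1 : EN N) k * (S e.2 : EN N) p))

theorem HD_pS {p k : Fin N} (hpk : p ≠ k) (φ : Tor L → ℝ) (c : Tor L × Tor L → ℝ) :
    HD hpk φ (pS c) (Wk c φ p k) := by
  unfold pS Wk
  exact HD.sum _ fun e _ => (HD.innr e.1 e.2).const_mul (c e)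

@[fun_prop]
theorem cont_coord (u : Tor L) (i : Fin N) : Continuous fun S : Conf N L => (S u : EN N) i :=
  (EuclideanSpace.proj i).continuous.comp (continuous_subtype_val.comp (continuous_apply u))

@[fun_prop]
theorem cont_Wk (c : Tor L × Tor L → ℝ) (φ : Tor L → ℝ) (p k : Fin N) :
    Continuous (Wk c φ p k : Conf N L → ℝ) := by
  unfold Wk
  refine continuous_finsetSum _ fun e _ => continuous_const.mul (continuous_const.mul ?_)
  exact ((cont_coord _ _).mul (cont_coord _ _)).sub ((cont_coord _ _).mul (cont_coord _ _))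

/-- integration by parts -/
theorem ibp (hN : N ≠ 0) {p k : Fin N} (hpk : p ≠ k) {φ : Tor L → ℝ} {Λ : Finset (Tor L)}
    (hφ : ∀ x, x ∉ Λ → φ x = 0) (c : Tor L × Tor L → ℝ) (η : Conf N L)
    {F F' : Conf N L → ℝ} (hF : Continuous F) (hF' : Continuous F') (h : HD hpk φ F F') :
    ∫ S, F' S ∂(GM c Λ η) = -∫ S, F S * Wk c φ p k S ∂(GM c Λ η) := by
  have := prior_isProbabilityMeasure N L hN
  set G : Conf N L → ℝ := fun S => (F' S + F S * Wk c φ p k S) * Real.exp (pS c S) with hG
  have hGc : Continuous G := (hF'.add (hF.mul (cont_Wk c φ p k))).mul (cont_exp c)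
  set K : Conf N L → ℝ := fun S => F S * Real.exp (pS c S) with hK
  have hKc : Continuous K := hF.mul (cont_exp c)
  have hKG : HD hpk φ K G := by
    intro t S
    have h1 := h t S
    have h2 := (HD_pS hpk φ c t S).exp
    refine (h1.mul h2).congr_deriv ?_
    rw [hG]
    simp only
    ring
  obtain ⟨C, hC⟩ := gib2_bdd hGc
  have hmeas : ∀ {H : Conf N L → ℝ}, Continuous H → ∀ t : ℝ, AEStronglyMeasurable
      (fun S => H (TT hpk φ t (splice Λ S η))) (prior N L) := by
    intro H hH t
    have h1 : Measurable (fun S : Conf N L => H (splice Λ S η)) :=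
      (hH.comp (cont_splice Λ η)).measurable
    have h2 : (fun S => H (TT hpk φ t (splice Λ S η))) =
        (fun S => H (splice Λ (TT hpk φ t S) η)) := by
      funext S
      rw [TT_splice hpk hφ]
    rw [h2]
    exact (h1.comp (Pool.Agent.H12R2.ON.rotC p k hpk
      (fun x => t * φ x)).measurable).aestronglyMeasurable
  have hd := hasDerivAt_integral_of_dominated_loc_of_deriv_le (μ := prior N L)
    (F := fun t S => K (TT hpk φ t (splice Λ S η)))
    (F' := fun t S => G (TT hpk φ t (splice Λ S η))) (x₀ := 0) (s := Set.univ)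
    (bound := fun _ => C)
    Filter.univ_mem (Filter.Eventually.of_forall fun t => hmeas hKc t)
    (by
      simp only [TT_zero]
      exact integrable_prior N L (hKc.comp (cont_splice Λ η)))
    (hmeas hGc 0)
    (Filter.Eventually.of_forall fun S t _ => hC _)
    (integrable_const C)
    (Filter.Eventually.of_forall fun S t _ => hKG t _)
  have h2 := hd.2
  have h3 : ∀ t : ℝ, ∫ S, K (TT hpk φ t (splice Λ S η)) ∂(prior N L) =
      ∫ S, K (splice Λ S η) ∂(prior N L) := by
    intro t
    have h4 := (Pool.Agent.H12R2.ON.mp_rotC hN p k hpk (fun x => t * φ x)).integral_comp'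
      (fun S : Conf N L => K (splice Λ S η))
    rw [← h4]
    refine integral_congr_ae (Filter.Eventually.of_forall fun S => ?_)
    simp only
    rw [← TT_splice hpk hφ]
    rfl
  simp only [h3, TT_zero] at h2
  have h4 : ∫ S, G (splice Λ S η) ∂(prior N L) = 0 := h2.unique (hasDerivAt_const _ _)
  have h5 : gH (pS c) Λ η (fun S => F' S + F S * Wk c φ p k S) = 0 := by
    unfold gH
    rw [show (∫ S, (F' (splice Λ S η) + F (splice Λ S η) * Wk c φ p k (splice Λ S η)) *
      Real.exp (pS c (splice Λ S η)) ∂(prior N L)) = ∫ S, G (splice Λ S η) ∂(prior N L) from rfl,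
      h4, zero_div]
  have h6 := gH_eq hN c Λ η (F := fun S => F' S + F S * Wk c φ p k S)
    (hF'.add (hF.mul (cont_Wk c φ p k))).measurable
  have h7 : ∫ S, (F' S + F S * Wk c φ p k S) ∂(GM c Λ η) =
      ∫ S, F' S ∂(GM c Λ η) + ∫ S, F S * Wk c φ p k S ∂(GM c Λ η) :=
    integral_add (intC hN c Λ η hF') (intC hN c Λ η (hF.mul (cont_Wk c φ p k)))
  rw [h5, h7] at h6
  linarith

end Pool.Agent.H12.LN
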