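import Pool.Agent.H12.LN.Step

/-! # The isotropy scale -/

set_option autoImplicit false
set_option linter.unusedSectionVars false

noncomputable section

namespace Pool.Agent.H12.LN

open MeasureTheory Pool.Agent.H5R2.ON Pool.Agent.H717R2.ON3 Pool.Agent.H983R2.ONJ

theorem sq_le_exp {t : ℝ} (ht : 0 ≤ t) : t ^ 2 ≤ 2 * Real.exp t := by
  have := Real.quadratic_le_exp_of_nonneg ht
  nlinarith

/-- the truncation errors -/
theorem errN (a C D : ℝ) (ha : 0 < a) (hC : 0 < C) (hD : 0 ≤ D) : ∃ K : ℝ, 1 ≤ K ∧ ∀ N : ℕ,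
    1 ≤ N → ∀ A : ℝ, 0 ≤ A → ∀ r : ℝ, K * ((1 + A / N) + Real.log N) ≤ r → ∀ q : ℕ,
    (q : ℝ) ≤ D * (1 + A / N) →
    C * (1 + A) * (2 * r * (Real.exp q + 1)) ^ 2 * Real.exp (-(a / 2) * r) ≤
        Real.exp (-(a / 8) * r) / 2 ∧
    Real.exp (C * (1 + A) * (2 * r * (Real.exp q + 1)) ^ 2 * Real.exp (-(a / 2) * r)) - 1 ≤
        Real.exp (-(a / 8) * r) ∧ Real.exp (-(a / 8) * r) ≤ 1 / N := by
  obtain ⟨C2, hC2⟩ : ∃ C2 : ℝ, C2 = 32 * C * (8 / a) ^ 2 := ⟨_, rfl⟩
  have hC20 : 0 < C2 := by rw [hC2]; positivity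
  obtain ⟨l, hl⟩ : ∃ l : ℝ, l = max 0 (Real.log (2 * C2)) := ⟨_, rfl⟩
  have hl0 : 0 ≤ l := by rw [hl]; exact le_max_left _ _
  have hl1 : 2 * C2 ≤ Real.exp l := by
    rw [← Real.exp_log (by positivity : 0 < 2 * C2)]
    refine Real.exp_le_exp.2 ?_
    rw [hl]
    exact le_max_right _ _
  refine ⟨(4 / a) * (l + 2 + 2 * D) + 8 / a + 1, by
    have : 0 ≤ (4 / a) * (l + 2 + 2 * D) + 8 / a := by positivity
    linarith, ?_⟩
  intro N hN A hA r hr q hq
  have hN0 : (0 : ℝ) < N := by exact_mod_cast hN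
  have hN1 : (1 : ℝ) ≤ N := by exact_mod_cast hN
  have hlN : 0 ≤ Real.log N := Real.log_nonneg hN1
  obtain ⟨b, hb⟩ : ∃ b : ℝ, b = 1 + A / N := ⟨_, rfl⟩
  rw [← hb] at hr hq
  have hb1 : 1 ≤ b := by
    rw [hb]
    have : 0 ≤ A / N := by positivity
    linarith
  have h1A : 1 + A ≤ N * Real.exp b := by
    have h1 : 1 + A ≤ N * b := by
      rw [hb, mul_add, mul_div_cancel₀ _ hN0.ne']
      linarith
    refine h1.trans (mul_le_mul_of_nonneg_left ?_ hN0.le)
    have := Real.add_one_le_exp b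
    linarith
  have hr0 : 0 < r := by
    have h2 : 0 < ((4 / a) * (l + 2 + 2 * D) + 8 / a + 1) * (b + Real.log N) := by positivity
    linarith
  have hrr : (4 / a) * (l + 2 + 2 * D) * b + (8 / a) * Real.log N ≤ r ∧
      (4 / a) * Real.log N + (4 / a) * (l + 1 + 2 * D) * b ≤ r := by
    have h3 : 0 ≤ (4 / a) * (l + 2 + 2 * D) := by positivity
    have h4 : 0 ≤ (8 / a) := by positivity
    have h5 : 0 ≤ (4 / a) := by positivity
    constructor
    · nlinarith [mul_nonneg h3 hlN, mul_nonneg h4 (by linarith : 0 ≤ b)]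
    · have h6 : (4 / a) * (l + 1 + 2 * D) ≤ (4 / a) * (l + 2 + 2 * D) :=
        mul_le_mul_of_nonneg_left (by linarith) h5
      have h7 : (4 / a) ≤ 8 / a := by
        rw [div_le_div_iff_of_pos_right ha]
        norm_num
      have h8 : (4 / a) * Real.log N ≤ (8 / a) * Real.log N := mul_le_mul_of_nonneg_right h7 hlN
      have h9 : (4 / a) * (l + 1 + 2 * D) * b ≤ (4 / a) * (l + 2 + 2 * D) * b :=
        mul_le_mul_of_nonneg_right h6 (by linarith)
      nlinarith [mul_nonneg h3 hlN, mul_nonneg h4 (by linarith : 0 ≤ b)]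
  have hN2 : Real.exp (-(a / 8) * r) ≤ 1 / N := by
    have h1 : Real.log N ≤ (a / 8) * r := by
      have h2 : (8 / a) * Real.log N ≤ r := by
        have h3 : 0 ≤ (4 / a) * (l + 2 + 2 * D) * b := by positivity
        linarith [hrr.1]
      have h3 : (a / 8) * ((8 / a) * Real.log N) ≤ (a / 8) * r :=
        mul_le_mul_of_nonneg_left h2 (by positivity)
      have h4 : (a / 8) * ((8 / a) * Real.log N) = Real.log N := by field_simp
      linarith
    calc Real.exp (-(a / 8) * r) ≤ Real.exp (-Real.log N) := Real.exp_le_exp.2 (by linarith)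
      _ = 1 / N := by rw [Real.exp_neg, Real.exp_log hN0, one_div]
  obtain ⟨x, hx⟩ : ∃ x : ℝ, x = C * (1 + A) * (2 * r * (Real.exp q + 1)) ^ 2 *
    Real.exp (-(a / 2) * r) := ⟨_, rfl⟩
  rw [← hx]
  have hx0 : 0 ≤ x := by rw [hx]; positivity
  have hq1 : 1 ≤ Real.exp (q : ℝ) := Real.one_le_exp (Nat.cast_nonneg q)
  have h1 : (2 * r * (Real.exp q + 1)) ^ 2 ≤ 16 * r ^ 2 * Real.exp (2 * (D * b)) := by
    have h2 : (2 * r * (Real.exp q + 1)) ^ 2 ≤ (4 * r * Real.exp q) ^ 2 := by
      refine pow_le_pow_left₀ (by positivity) ?_ 2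
      nlinarith
    have h3 : (4 * r * Real.exp q) ^ 2 = 16 * r ^ 2 * Real.exp (2 * q) := by
      rw [mul_pow, mul_pow, ← Real.exp_nat_mul]
      push_cast
      ring
    rw [h3] at h2
    refine h2.trans (mul_le_mul_of_nonneg_left (Real.exp_le_exp.2 (by linarith)) (by positivity))
  have h2 : r ^ 2 ≤ 2 * (8 / a) ^ 2 * Real.exp ((a / 8) * r) := by
    have h3 := sq_le_exp (t := (a / 8) * r) (by positivity)
    have h4 : r ^ 2 = (8 / a) ^ 2 * ((a / 8) * r) ^ 2 := by field_simp
    rw [h4]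
    calc (8 / a) ^ 2 * ((a / 8) * r) ^ 2 ≤ (8 / a) ^ 2 * (2 * Real.exp ((a / 8) * r)) :=
          mul_le_mul_of_nonneg_left h3 (by positivity)
      _ = _ := by ring
  have h3 : x ≤ C2 * (N * Real.exp b) * Real.exp (2 * (D * b)) *
      (Real.exp ((a / 8) * r) * Real.exp (-(a / 2) * r)) := by
    rw [hx]
    calc C * (1 + A) * (2 * r * (Real.exp q + 1)) ^ 2 * Real.exp (-(a / 2) * r)
        ≤ C * (1 + A) * (16 * r ^ 2 * Real.exp (2 * (D * b))) * Real.exp (-(a / 2) * r) := by
          gcongr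
      _ ≤ C * (N * Real.exp b) * (16 * (2 * (8 / a) ^ 2 * Real.exp ((a / 8) * r)) *
          Real.exp (2 * (D * b))) * Real.exp (-(a / 2) * r) := by
          gcongr
      _ = _ := by rw [hC2]; ring
  have h4 : x ≤ Real.exp (-(a / 8) * r) / 2 := by
    refine h3.trans ?_
    have h5 : 2 * C2 * (N * Real.exp b) * Real.exp (2 * (D * b)) ≤ Real.exp ((a / 4) * r) := by
      calc 2 * C2 * (N * Real.exp b) * Real.exp (2 * (D * b))
          ≤ Real.exp l * (N * Real.exp b) * Real.exp (2 * (D * b)) := by gcongr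
        _ = Real.exp (l + Real.log N + b + 2 * (D * b)) := by
            rw [Real.exp_add, Real.exp_add, Real.exp_add, Real.exp_log hN0]
            ring
        _ ≤ Real.exp ((a / 4) * r) := by
            refine Real.exp_le_exp.2 ?_
            have h6 : (a / 4) * ((4 / a) * Real.log N + (4 / a) * (l + 1 + 2 * D) * b) ≤
                (a / 4) * r := mul_le_mul_of_nonneg_left hrr.2 (by positivity)
            have h7 : (a / 4) * ((4 / a) * Real.log N + (4 / a) * (l + 1 + 2 * D) * b) =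
                Real.log N + (l + 1 + 2 * D) * b := by field_simp
            nlinarith [mul_le_mul_of_nonneg_left hb1 hl0]
    have h6 : Real.exp ((a / 8) * r) * Real.exp (-(a / 2) * r) =
        Real.exp (-((a / 4) * r)) * Real.exp (-(a / 8) * r) := by
      rw [← Real.exp_add, ← Real.exp_add]
      congr 1
      ring
    rw [h6]
    have h7 : Real.exp ((a / 4) * r) * Real.exp (-((a / 4) * r)) = 1 := by
      rw [← Real.exp_add, add_neg_cancel, Real.exp_zero]
    have h8 : 0 ≤ Real.exp (-((a / 4) * r)) * Real.exp (-(a / 8) * r) := by positivity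
    calc C2 * (N * Real.exp b) * Real.exp (2 * (D * b)) *
          (Real.exp (-((a / 4) * r)) * Real.exp (-(a / 8) * r))
        = (2 * C2 * (N * Real.exp b) * Real.exp (2 * (D * b))) *
          (Real.exp (-((a / 4) * r)) * Real.exp (-(a / 8) * r)) / 2 := by ring
      _ ≤ Real.exp ((a / 4) * r) * (Real.exp (-((a / 4) * r)) * Real.exp (-(a / 8) * r)) / 2 := by
          gcongr
      _ = (Real.exp ((a / 4) * r) * Real.exp (-((a / 4) * r))) * Real.exp (-(a / 8) * r) / 2 := by
          ring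
      _ = _ := by rw [h7, one_mul]
  refine ⟨h4, ?_, hN2⟩
  have h5 : Real.exp (-(a / 8) * r) ≤ 1 := hN2.trans (by
    rw [div_le_one hN0]
    exact hN1)
  have hx1 : x ≤ 1 / 2 := by linarith
  have h6 : Real.exp x ≤ 1 + 2 * x := by
    have h7 := Real.add_one_le_exp (-x)
    rw [Real.exp_neg] at h7
    have h8 : 0 < Real.exp x := Real.exp_pos x
    have h9 : (-x + 1) * Real.exp x ≤ 1 := by
      calc (-x + 1) * Real.exp x ≤ (Real.exp x)⁻¹ * Real.exp x :=
            mul_le_mul_of_nonneg_right h7 h8.le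
        _ = 1 := inv_mul_cancel₀ h8.ne'
    have h10 : (1 - x) * (1 + 2 * x) ≥ 1 := by nlinarith
    have h11 : 0 < 1 - x := by linarith
    by_contra hcon
    push Not at hcon
    have h12 : (1 - x) * (1 + 2 * x) < (1 - x) * Real.exp x := mul_lt_mul_of_pos_left hcon h11
    linarith
  linarith

/-- **The isotropy scale.** -/
theorem iso_scale (a : ℝ) (ha : 0 < a) : ∃ K : ℝ, 1 ≤ K ∧ ∀ A : ℝ, 0 ≤ A → ∀ N : ℕ, 2 ≤ N →
    ∀ R : ℝ, Real.exp (K * (1 + A / N)) * (1 + Real.log N) ^ 9 ≤ R → UBJ N A a R (3 / N) := by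
  obtain ⟨K, C, hK, hC, hstep⟩ := ustep a ha
  obtain ⟨K3, hK3, herr⟩ := errN a C (33 * K) ha hC (by positivity)
  refine ⟨K3 + 3 + 160 * K + 1, by nlinarith, ?_⟩
  intro A hA N hN R hR
  have hN0 : N ≠ 0 := by omega
  have hNpos : (0 : ℝ) < N := by exact_mod_cast Nat.pos_of_ne_zero hN0
  have hN1 : (1 : ℝ) ≤ N := by exact_mod_cast (by omega : 1 ≤ N)
  have hlN : 0 ≤ Real.log N := Real.log_nonneg hN1
  obtain ⟨b, hb⟩ : ∃ b : ℝ, b = 1 + A / N := ⟨_, rfl⟩
  have hb1 : 1 ≤ b := by
    rw [hb]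
    have : 0 ≤ A / N := by positivity
    linarith
  have hAN : A ≤ b * N := by
    rw [hb, add_mul, div_mul_cancel₀ _ hNpos.ne']
    linarith
  rw [← hb] at hR
  obtain ⟨r0, hr0⟩ : ∃ r0 : ℝ, r0 = K3 * (b + Real.log N) := ⟨_, rfl⟩
  have hr01 : 1 ≤ r0 := by rw [hr0]; nlinarith
  obtain ⟨ρ, hρ⟩ : ∃ ρ : ℝ, ρ = Real.exp (-(1 / 4)) := ⟨_, rfl⟩
  have hρ0 : 0 < ρ := by rw [hρ]; exact Real.exp_pos _
  have hρ1 : ρ ≤ 4 / 5 := by
    rw [hρ, Real.exp_neg]
    have h1 := Real.add_one_le_exp (1 / 4 : ℝ)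
    have h2 : (5 / 4 : ℝ) ≤ Real.exp (1 / 4) := by linarith
    rw [inv_le_comm₀ (Real.exp_pos _) (by norm_num)]
    norm_num
    linarith
  obtain ⟨α, hα⟩ : ∃ α : ℕ → ℝ, α = fun k => (3 / 2 : ℝ) ^ k - 1 := ⟨_, rfl⟩
  have hα0 : α 0 = 0 := by rw [hα]; simp
  have hαs : ∀ k, α (k + 1) = 3 / 2 * α k + 1 / 2 := by
    intro k
    rw [hα]
    simp only [pow_succ]
    ring
  have hαk : ∀ k : ℕ, (k : ℝ) / 2 ≤ α k := by
    intro k
    have := one_add_mul_le_pow (a := (1 / 2 : ℝ)) (by norm_num) k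
    have e : (1 + 1 / 2 : ℝ) = 3 / 2 := by norm_num
    rw [e] at this
    rw [hα]
    simp only
    linarith
  have hP : ∀ k : ℕ, ∃ r : ℝ, r0 ≤ r ∧
      r ≤ r0 * Real.exp (3 * k + 32 * K * b * (5 * (1 - ρ ^ k))) ∧
      UBJ N A a r (max (3 / N) (Real.exp (-α k))) := by
    intro k
    induction k with
    | zero =>
      refine ⟨r0, le_rfl, ?_, ?_⟩
      · simp
      · rw [hα0, neg_zero, Real.exp_zero]
        exact UBJ_mono hN0 (UBJ_one hN0 A a r0) le_rfl (le_max_right _ _)
    | succ k ih =>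
      obtain ⟨r, hr1, hr2, hU⟩ := ih
      have hρk : 0 < ρ ^ k := by positivity
      have hK0 : 0 < 32 * K * b := by positivity
      have hgeo : 32 * K * b * (5 * (1 - ρ ^ k)) + 32 * K * b * ρ ^ k ≤
          32 * K * b * (5 * (1 - ρ ^ (k + 1))) := by
        rw [← mul_add]
        refine mul_le_mul_of_nonneg_left ?_ hK0.le
        rw [pow_succ]
        nlinarith
      by_cases hcase : Real.exp (-α k) ≤ 3 / N
      · refine ⟨r, hr1, hr2.trans ?_, ?_⟩
        · refine mul_le_mul_of_nonneg_left (Real.exp_le_exp.2 ?_) (by linarith)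
          push_cast
          nlinarith
        · rw [max_eq_left hcase] at hU
          exact UBJ_mono hN0 hU le_rfl (le_max_left _ _)
      · push Not at hcase
        rw [max_eq_right hcase.le] at hU
        have hw0 := Real.exp_pos (-α k)
        have hu : 1 / (N : ℝ) ≤ Real.exp (-α k) := by
          refine le_trans ?_ hcase.le
          gcongr
          norm_num
        obtain ⟨q, hq⟩ : ∃ q : ℕ, q = ⌈32 * K * b * Real.exp (-(α k / 2))⌉₊ := ⟨_, rfl⟩
        have hqpos : 0 < 32 * K * b * Real.exp (-(α k / 2)) := by positivity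
        have hq1 : 1 ≤ q := by
          rw [hq]
          exact Nat.one_le_iff_ne_zero.2 (Nat.pos_iff_ne_zero.1 (Nat.ceil_pos.2 hqpos))
        have hq2 : 32 * K * b * Real.exp (-(α k / 2)) ≤ q := by
          rw [hq]
          exact Nat.le_ceil _
        have hq3 : (q : ℝ) ≤ 32 * K * b * Real.exp (-(α k / 2)) + 1 := by
          rw [hq]
          exact (Nat.ceil_lt_add_one hqpos.le).le
        have hq0 : (0 : ℝ) < q := by exact_mod_cast hq1
        have hαk0 : 0 ≤ α k := le_trans (by positivity) (hαk k)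
        have hq4 : (q : ℝ) ≤ 33 * K * (1 + A / N) := by
          rw [← hb]
          have h1 : Real.exp (-(α k / 2)) ≤ 1 := Real.exp_le_one_iff.2 (by linarith)
          have h2 : 32 * K * b * Real.exp (-(α k / 2)) ≤ 32 * K * b * 1 :=
            mul_le_mul_of_nonneg_left h1 hK0.le
          nlinarith
        have hq5 : (q : ℝ) ≤ 32 * K * b * ρ ^ k + 1 := by
          refine hq3.trans ?_
          have h1 : Real.exp (-(α k / 2)) ≤ ρ ^ k := by
            rw [hρ, ← Real.exp_nat_mul]
            refine Real.exp_le_exp.2 ?_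
            linarith [hαk k]
          have := mul_le_mul_of_nonneg_left h1 hK0.le
          linarith
        have hr1' : 1 ≤ r := hr01.trans hr1
        obtain ⟨-, herr1, herr2⟩ := herr N (by omega) A hA r (by rw [← hb, ← hr0]; exact hr1) q hq4
        have hs := hstep A hA N hN r hr1' q hq1 (Real.exp (-α k)) hu hU
        refine ⟨2 * r * (Real.exp q + 1), ?_, ?_, ?_⟩
        · have := Real.exp_pos (q : ℝ)
          nlinarith
        · have h1 : 1 ≤ Real.exp (q : ℝ) := Real.one_le_exp hq0.le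
          have h2 : (4 : ℝ) ≤ Real.exp 2 := by
            have h3 := Real.quadratic_le_exp_of_nonneg (x := 2) (by norm_num)
            linarith
          have h3 : 2 * r * (Real.exp q + 1) ≤ r * Real.exp (2 + q) := by
            rw [Real.exp_add]
            nlinarith [mul_le_mul_of_nonneg_right h2 (by positivity : 0 ≤ Real.exp (q : ℝ))]
          refine h3.trans ?_
          calc r * Real.exp (2 + q) ≤ (r0 * Real.exp (3 * k + 32 * K * b * (5 * (1 - ρ ^ k)))) *
                Real.exp (2 + q) := mul_le_mul_of_nonneg_right hr2 (Real.exp_pos _).le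
            _ = r0 * Real.exp (3 * k + 32 * K * b * (5 * (1 - ρ ^ k)) + (2 + q)) := by
                rw [mul_assoc, ← Real.exp_add]
            _ ≤ _ := by
                refine mul_le_mul_of_nonneg_left (Real.exp_le_exp.2 ?_) (by linarith)
                push_cast
                linarith
        · refine UBJ_mono hN0 hs le_rfl ?_
          have h1 : 8 * K * A * Real.exp (-α k) ^ 2 / (N * q) ≤ Real.exp (-α (k + 1)) / 2 := by
            rw [div_le_div_iff₀ (by positivity) (by norm_num)]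
            have h2 : Real.exp (-α k) ^ 2 = Real.exp (-α (k + 1)) *
                (Real.exp (-(α k / 2)) * Real.exp (1 / 2)) := by
              rw [← Real.exp_add, ← Real.exp_add, ← Real.exp_nat_mul, hαs]
              congr 1
              push_cast
              ring
            have h3 : Real.exp (1 / 2) ≤ 2 := by
              have h4 : Real.exp (1 / 2) ^ 2 ≤ 2 ^ 2 := by
                rw [← Real.exp_nat_mul]
                have := Real.exp_one_lt_d9
                norm_num
                linarith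
              exact le_of_sq_le_sq h4 (by norm_num)
            rw [h2]
            calc 8 * K * A * (Real.exp (-α (k + 1)) * (Real.exp (-(α k / 2)) *
                  Real.exp (1 / 2))) * 2
                ≤ 8 * K * (b * N) * (Real.exp (-α (k + 1)) * (Real.exp (-(α k / 2)) * 2)) * 2 := by
                  gcongr
              _ = Real.exp (-α (k + 1)) * (N * (32 * K * b * Real.exp (-(α k / 2)))) := by ring
              _ ≤ Real.exp (-α (k + 1)) * (N * q) := by gcongr
          have h5 : Real.exp (C * (1 + A) * (2 * r * (Real.exp q + 1)) ^ 2 *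
              Real.exp (-(a / 2) * r)) - 1 ≤ 1 / N := herr1.trans herr2
          have h6 : (3 : ℝ) / N = 2 / N + 1 / N := by ring
          have h7 : 0 < 1 / (N : ℝ) := by positivity
          have h8 : (2 : ℝ) / N = 2 * (1 / N) := by ring
          have h9 : (3 : ℝ) / N = 3 * (1 / N) := by ring
          rcases le_total (2 / (N : ℝ)) (8 * K * A * Real.exp (-α k) ^ 2 / (N * q)) with h | h
          · rw [max_eq_right h]
            rcases le_total (Real.exp (-α (k + 1))) (3 / N) with h10 | h10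
            · refine le_trans ?_ (le_max_left _ _)
              linarith
            · refine le_trans ?_ (le_max_right _ _)
              linarith
          · rw [max_eq_left h]
            refine le_trans ?_ (le_max_left _ _)
            linarith
  -- the number of steps
  obtain ⟨n, hn1, hn2⟩ := exists_nat_pow_near (x := 1 + Real.log N) (y := 3 / 2)
    (by linarith) (by norm_num)
  obtain ⟨r, -, hr2, hU⟩ := hP (n + 1)
  have hfin : max (3 / (N : ℝ)) (Real.exp (-α (n + 1))) ≤ 3 / N := by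
    refine max_le le_rfl ?_
    have h1 : Real.log N ≤ α (n + 1) := by
      rw [hα]
      simp only
      linarith
    calc Real.exp (-α (n + 1)) ≤ Real.exp (-Real.log N) := Real.exp_le_exp.2 (by linarith)
      _ = 1 / N := by rw [Real.exp_neg, Real.exp_log hNpos, one_div]
      _ ≤ 3 / N := by
        gcongr
        norm_num
  refine UBJ_mono hN0 hU ?_ hfin
  refine hr2.trans (le_trans ?_ hR)
  have hρn : 0 < ρ ^ (n + 1) := by positivity
  have h1 : r0 ≤ Real.exp (K3 * b) * (1 + Real.log N) := by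
    rw [hr0]
    have h2 : K3 * b ≤ Real.exp (K3 * b) := by
      have := Real.add_one_le_exp (K3 * b)
      linarith
    have h3 : K3 ≤ K3 * b := by nlinarith
    nlinarith [mul_le_mul_of_nonneg_right (h3.trans h2) hlN]
  have h2 : Real.exp (3 * ((n + 1 : ℕ) : ℝ)) ≤ Real.exp 3 * (1 + Real.log N) ^ 8 := by
    have e1 : Real.exp (3 * ((n + 1 : ℕ) : ℝ)) = Real.exp 3 * Real.exp 3 ^ n := by
      rw [← Real.exp_nat_mul, ← Real.exp_add]
      congr 1
      push_cast
      ring
    rw [e1]
    refine mul_le_mul_of_nonneg_left ?_ (Real.exp_pos _).le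
    have h3 : Real.exp 3 ≤ (3 / 2 : ℝ) ^ 8 := by
      have h4 : Real.exp 3 = Real.exp 1 ^ 3 := by
        rw [← Real.exp_nat_mul]
        norm_num
      rw [h4]
      have h5 : Real.exp 1 ≤ 2.7182818286 := Real.exp_one_lt_d9.le
      calc Real.exp 1 ^ 3 ≤ (2.7182818286 : ℝ) ^ 3 := pow_le_pow_left₀ (Real.exp_pos _).le h5 3
        _ ≤ _ := by norm_num
    calc Real.exp 3 ^ n ≤ ((3 / 2 : ℝ) ^ 8) ^ n := pow_le_pow_left₀ (Real.exp_pos _).le h3 n
      _ = ((3 / 2 : ℝ) ^ n) ^ 8 := by rw [← pow_mul, ← pow_mul, mul_comm]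
      _ ≤ (1 + Real.log N) ^ 8 := pow_le_pow_left₀ (by positivity) hn1 8
  have h3 : Real.exp (32 * K * b * (5 * (1 - ρ ^ (n + 1)))) ≤ Real.exp (160 * K * b) := by
    refine Real.exp_le_exp.2 ?_
    have : 0 ≤ 160 * K * b * ρ ^ (n + 1) := by positivity
    linarith
  rw [Real.exp_add]
  calc r0 * (Real.exp (3 * ((n + 1 : ℕ) : ℝ)) *
        Real.exp (32 * K * b * (5 * (1 - ρ ^ (n + 1)))))
      ≤ (Real.exp (K3 * b) * (1 + Real.log N)) * ((Real.exp 3 * (1 + Real.log N) ^ 8) *
        Real.exp (160 * K * b)) := by gcongr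
    _ = (Real.exp (K3 * b) * Real.exp 3 * Real.exp (160 * K * b)) * (1 + Real.log N) ^ 9 := by ring
    _ ≤ Real.exp ((K3 + 3 + 160 * K + 1) * b) * (1 + Real.log N) ^ 9 := by
        refine mul_le_mul_of_nonneg_right ?_ (by positivity)
        rw [← Real.exp_add, ← Real.exp_add]
        refine Real.exp_le_exp.2 ?_
        nlinarith

end Pool.Agent.H12.LN
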