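import Pool.Agent.H12.LN.Decay
import Pool.Agent.H12.MG.Model

/-! # The large `N` bound for the mass -/

set_option autoImplicit false
set_option linter.unusedSectionVars false

noncomputable section

namespace Pool.Agent.H12.LN

open MeasureTheory Pool.Agent.H5R2.ON Pool.Agent.H717R2.ON3 Pool.Agent.H983R2.ONJ
open Pool.Agent.Y13.QM Pool.Agent.Results.MP_8be4c0_mp.MassLowerBound
open Pool.Agent.H12.MG (Phi Phi_pos mass_main)

/-- consequences of exponential decay on the tori -/
theorem pack (J : ℤ × ℤ → ℝ) (N : ℕ) (β b : ℝ) (hb0 : 0 < b) (hb1 : b ≤ 1)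
    (htor : ∀ (L : ℕ) [NeZero L] (x y : Tor L),
      |corr N L J β x y| ≤ Real.exp 2 * Real.exp (-b * tnorm (x - y))) :
    ∀ G : ℤ × ℤ → ℝ, IsLimitCorr N J β G →
      (∀ x, |G x| ≤ Real.exp 2 * Real.exp (-b * znorm x)) ∧
      Summable G ∧ ∑' x, G x ≤ Real.exp 8 / b ^ 2 ∧
      ∀ μ : ℝ, (∀ n : ℕ, 0 < G (n, 0)) →
        Filter.Tendsto (fun n : ℕ => -(1 / (n : ℝ)) * Real.log (G (n, 0))) Filter.atTop
          (nhds μ) → b ≤ μ := by
  intro G hG
  obtain ⟨l, hl, hlim⟩ := hG
  have hbound : ∀ x, |G x| ≤ Real.exp 2 * Real.exp (-b * znorm x) := by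
    intro x
    refine le_of_tendsto (hlim x).abs ?_
    filter_upwards [hl.eventually_ge_atTop (2 * (x.1.natAbs + x.2.natAbs))] with n hn
    refine (htor (l n + 1) _ _).trans (le_of_eq ?_)
    congr 2
    rw [zero_sub, tnorm_neg]
    have h1 : |x.1| * 2 < ((l n + 1 : ℕ) : ℤ) := by
      have : (|x.1| : ℤ) = x.1.natAbs := (Int.natCast_natAbs x.1).symm
      rw [this]; push_cast; omega
    have h2 : |x.2| * 2 < ((l n + 1 : ℕ) : ℤ) := by
      have : (|x.2| : ℤ) = x.2.natAbs := (Int.natCast_natAbs x.2).symm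
      rw [this]; push_cast; omega
    have := tnorm_cast (L := l n + 1) x.1 x.2 (by exact_mod_cast h1) (by exact_mod_cast h2)
    rw [this]
    rfl
  have hsum : Summable G := by
    refine Summable.of_norm_bounded (g := fun x => Real.exp 2 * Real.exp (-b * znorm x))
      ((summable_exp_znorm b hb0).mul_left _) fun x => ?_
    rw [Real.norm_eq_abs]
    exact hbound x
  refine ⟨hbound, hsum, ?_, ?_⟩
  · have h1 : ∑' x, G x ≤ ∑' x : ℤ × ℤ, Real.exp 2 * Real.exp (-b * znorm x) :=
      hsum.tsum_le_tsum (fun x => (le_abs_self _).trans (hbound x))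
        ((summable_exp_znorm b hb0).mul_left _)
    rw [tsum_mul_left] at h1
    have h2 := tsum_exp_znorm_le hb0 hb1
    have h3 : Real.exp 2 * ∑' x : ℤ × ℤ, Real.exp (-b * znorm x) ≤ Real.exp 2 * (64 / b ^ 2) :=
      mul_le_mul_of_nonneg_left h2 (Real.exp_pos _).le
    refine (h1.trans h3).trans ?_
    have h4 : (64 : ℝ) ≤ Real.exp 6 := by
      have h5 : (2 : ℝ) ≤ Real.exp 1 := by
        have := Real.add_one_le_exp (1 : ℝ)
        linarith
      have h6 : Real.exp 6 = Real.exp 1 ^ 6 := by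
        rw [← Real.exp_nat_mul]
        norm_num
      rw [h6]
      calc (64 : ℝ) = 2 ^ 6 := by norm_num
        _ ≤ Real.exp 1 ^ 6 := pow_le_pow_left₀ (by norm_num) h5 6
    have h5 : Real.exp 8 = Real.exp 2 * Real.exp 6 := by
      rw [← Real.exp_add]
      norm_num
    rw [h5, mul_div_assoc]
    refine mul_le_mul_of_nonneg_left ?_ (Real.exp_pos _).le
    exact div_le_div_of_nonneg_right h4 (by positivity)
  · intro μ hpos hμ
    have hlow : ∀ᶠ n : ℕ in Filter.atTop, b - 2 / n ≤
        -(1 / (n : ℝ)) * Real.log (G (n, 0)) := by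
      filter_upwards [Filter.eventually_gt_atTop 0] with n hn
      have hn' : (0 : ℝ) < n := by exact_mod_cast hn
      have h1 := hbound (n, 0)
      rw [abs_of_pos (hpos n)] at h1
      have h2 : znorm ((n : ℤ), (0 : ℤ)) = n := by
        unfold znorm
        simp
      rw [h2] at h1
      have h3 : Real.log (G (n, 0)) ≤ 2 + -b * n := by
        have := Real.log_le_log (hpos n) h1
        rw [← Real.exp_add, Real.log_exp] at this
        exact this
      have h4 : b - 2 / n = -(1 / (n : ℝ)) * (2 + -b * n) := by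
        field_simp
        ring
      rw [h4]
      have h5 : (0 : ℝ) < 1 / n := by positivity
      nlinarith
    have hlim2 : Filter.Tendsto (fun n : ℕ => b - 2 / (n : ℝ)) Filter.atTop
        (nhds (b - 0)) :=
      tendsto_const_nhds.sub (tendsto_const_div_atTop_nhds_zero_nat _)
    rw [sub_zero] at hlim2
    exact le_of_tendsto_of_tendsto hlim2 hμ hlow

/-- the rate -/
def rate (C β : ℝ) (N : ℕ) : ℝ := Real.exp (-(C * (1 + β / N))) / (1 + Real.log N) ^ 9

theorem rate_mono {C C' β : ℝ} {N : ℕ} (hN : 1 ≤ N) (hβ : 0 ≤ β) (h : C ≤ C') :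
    rate C' β N ≤ rate C β N := by
  unfold rate
  have hlN : 0 ≤ Real.log N := Real.log_nonneg (by exact_mod_cast hN)
  refine div_le_div_of_nonneg_right (Real.exp_le_exp.2 (neg_le_neg ?_)) (by positivity)
  exact mul_le_mul_of_nonneg_right h (by positivity)

/-- exponential decay on the tori -/
theorem tor_dec (J : ℤ × ℤ → ℝ) (hJ : Admissible J) : ∃ C : ℝ, 0 < C ∧ ∀ N : ℕ, 3 ≤ N →
    ∀ β : ℝ, 0 < β → C * β ≤ (N : ℝ) ^ 2 → ∀ (L : ℕ) [NeZero L] (x y : Tor L),
      |corr N L J β x y| ≤ Real.exp 2 * Real.exp (-(rate C β N) * tnorm (x - y)) := by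
  obtain ⟨A, a, ha, hJd⟩ := hJ.decay
  obtain ⟨A', hA', hper⟩ := Jper_le ha hJd
  obtain ⟨K, hK, hdec⟩ := decLN (a / 2) (by linarith)
  obtain ⟨C0, hC0, hmass⟩ := mass_main J hJ
  refine ⟨K * (1 + A') + K + 4 * C0, by positivity, ?_⟩
  intro N hN β hβ hNβ L _ x y
  have hN0 : N ≠ 0 := by omega
  have hNpos : (0 : ℝ) < N := by exact_mod_cast Nat.pos_of_ne_zero hN0
  have hlN : 0 ≤ Real.log N := Real.log_nonneg (by exact_mod_cast (by omega : 1 ≤ N))
  by_cases hcase : K ≤ (N : ℝ) ^ 2
  · -- the main case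
    obtain ⟨A1, hA1⟩ : ∃ A1 : ℝ, A1 = max 1 (β * A') := ⟨_, rfl⟩
    have hKA : K * A1 ≤ (N : ℝ) ^ 2 := by
      rw [hA1]
      rcases le_total 1 (β * A') with h | h
      · rw [max_eq_right h]
        refine le_trans ?_ hNβ
        nlinarith [mul_nonneg (by linarith : 0 ≤ K) hβ.le, mul_nonneg hC0.le hβ.le]
      · rw [max_eq_left h, mul_one]
        exact hcase
    have hE : ExpC A1 (a / 2) (cJ L J β) := by
      intro e
      unfold cJ
      split_ifs with h
      · refine ⟨le_rfl, mul_nonneg ?_ (Real.exp_pos _).le⟩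
        rw [hA1]
        exact le_max_of_le_left zero_le_one
      · refine ⟨mul_nonneg hβ.le (Jper_nonneg hJ.nonneg (sub_ne_zero.2 h)), ?_⟩
        have h1 := mul_le_mul_of_nonneg_left (hper L (e.1 - e.2)) hβ.le
        rw [tnorm_sub_comm e.1 e.2] at h1
        refine h1.trans ?_
        rw [← mul_assoc]
        refine mul_le_mul_of_nonneg_right ?_ (Real.exp_pos _).le
        rw [hA1]
        exact le_max_right _ _
    have h0 : 0 ≤ corr N L J β x y := by
      rw [corr_eq]
      exact corS_nonneg hN0 (fun e => (hE e).1) x y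
    rw [abs_of_nonneg h0, corr_eq]
    refine (hdec A1 (by rw [hA1]; exact le_max_left _ _) N hN hKA L (cJ L J β) hE x y).trans ?_
    refine mul_le_mul_of_nonneg_left (Real.exp_le_exp.2 ?_) (Real.exp_pos _).le
    rw [neg_mul, neg_mul]
    refine neg_le_neg (mul_le_mul_of_nonneg_right ?_ (tnorm_nonneg _))
    unfold rate
    refine div_le_div_of_nonneg_right (Real.exp_le_exp.2 (neg_le_neg ?_)) (by positivity)
    have hA1' : A1 ≤ 1 + β * A' := by
      rw [hA1]
      exact max_le (by nlinarith) (by linarith)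
    have h1 : A1 / N ≤ 1 + (β / N) * A' := by
      have h2 : A1 / N ≤ (1 + β * A') / N := div_le_div_of_nonneg_right hA1' hNpos.le
      have h3 : 1 / (N : ℝ) ≤ 1 := by
        rw [div_le_one hNpos]
        exact_mod_cast (by omega : 1 ≤ N)
      have h4 : (1 + β * A') / N = 1 / N + (β / N) * A' := by ring
      linarith
    have h2 : 0 ≤ β / N := by positivity
    have h5 : K * (1 + A1 / N) ≤ K * (2 + (β / N) * A') :=
      mul_le_mul_of_nonneg_left (by linarith) (by linarith)
    have h6 : 0 ≤ K * A' := mul_nonneg (by linarith) hA'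
    have h7 : 0 ≤ (β / N) * K := mul_nonneg h2 (by linarith)
    have h8 : 0 ≤ (β / N) * C0 := mul_nonneg h2 hC0.le
    have e1 : (K * (1 + A') + K + 4 * C0) * (1 + β / N) = K * (2 + (β / N) * A') + K * A' +
      2 * ((β / N) * K) + 4 * C0 + 4 * ((β / N) * C0) := by ring
    rw [e1]
    linarith
  · -- small `N`
    push Not at hcase
    have hβ1 : β ≤ 1 := by
      have h1 : K * β ≤ (N : ℝ) ^ 2 := by
        refine le_trans ?_ hNβ
        nlinarith [mul_nonneg (by linarith : 0 ≤ K) hβ.le, mul_nonneg hC0.le hβ.le,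
          mul_nonneg (mul_nonneg (by linarith : 0 ≤ K) hA') hβ.le]
      by_contra hcon
      push Not at hcon
      nlinarith
    refine ((hmass N hN β hβ).1 L x y).trans ?_
    refine mul_le_mul_of_nonneg_left (Real.exp_le_exp.2 ?_) (Real.exp_pos _).le
    rw [neg_mul, neg_mul]
    refine neg_le_neg (mul_le_mul_of_nonneg_right ?_ (tnorm_nonneg _))
    have hΦ : Phi β ≤ 4 := by
      unfold Phi
      have h1 : Real.log (2 + β) ≤ 2 := by
        have := Real.log_le_sub_one_of_pos (by linarith : 0 < 2 + β)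
        linarith
      have h2 : 0 ≤ Real.log (2 + β) := Real.log_nonneg (by linarith)
      nlinarith
    unfold rate
    have h1 : Real.exp (-((K * (1 + A') + K + 4 * C0) * (1 + β / N))) / (1 + Real.log N) ^ 9 ≤
        Real.exp (-((K * (1 + A') + K + 4 * C0) * (1 + β / N))) :=
      div_le_self (Real.exp_pos _).le (one_le_pow₀ (by linarith))
    refine h1.trans (Real.exp_le_exp.2 (neg_le_neg ?_))
    have h2 : C0 * Phi β ≤ C0 * 4 := mul_le_mul_of_nonneg_left hΦ hC0.le
    have h3 : 0 ≤ β / N := by positivity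
    have h4 : 0 ≤ K * (1 + A') + K := by positivity
    have h5 : (K * (1 + A') + K + 4 * C0) * 1 ≤ (K * (1 + A') + K + 4 * C0) * (1 + β / N) :=
      mul_le_mul_of_nonneg_left (by linarith) (by positivity)
    linarith

theorem large_main (J : ℤ × ℤ → ℝ) (hJ : Admissible J) :
    ∃ C : ℝ, 0 < C ∧ ∀ N : ℕ, 3 ≤ N → ∀ β : ℝ, 0 < β → C * β ≤ (N : ℝ) ^ 2 →
      (∀ (L : ℕ) [NeZero L] (x y : Tor L), |corr N L J β x y| ≤
        Real.exp 2 * Real.exp (-(rate C β N) * tnorm (x - y))) ∧
      ∀ G : ℤ × ℤ → ℝ, IsLimitCorr N J β G →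
        (∀ x, |G x| ≤ Real.exp 2 * Real.exp (-(rate C β N) * znorm x)) ∧
        Summable G ∧ ∑' x, G x ≤ Real.exp 8 / (rate C β N) ^ 2 ∧
        ∀ μ : ℝ, (∀ n : ℕ, 0 < G (n, 0)) →
          Filter.Tendsto (fun n : ℕ => -(1 / (n : ℝ)) * Real.log (G (n, 0))) Filter.atTop
            (nhds μ) → rate C β N ≤ μ := by
  obtain ⟨C, hC, h⟩ := tor_dec J hJ
  refine ⟨C, hC, ?_⟩
  intro N hN β hβ hNβ
  have hlN : 0 ≤ Real.log N := Real.log_nonneg (by exact_mod_cast (by omega : 1 ≤ N))
  have hb0 : 0 < rate C β N := by unfold rate; positivity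
  have hb1 : rate C β N ≤ 1 := by
    unfold rate
    refine (div_le_self (Real.exp_pos _).le (one_le_pow₀ (by linarith))).trans ?_
    refine Real.exp_le_one_iff.2 ?_
    have : 0 ≤ C * (1 + β / N) := by positivity
    linarith
  exact ⟨h N hN β hβ hNβ, pack J N β _ hb0 hb1 (h N hN β hβ hNβ)⟩

end Pool.Agent.H12.LN
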