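import Pool.Agent.H12.LN.Abs
import Pool.Graph.R_seed8.H493R2.ONJ.GeoA
import Pool.Graph.R_seed8.H269R2.ONJ.Fin

/-! # The logarithmic profile and its energy -/

set_option autoImplicit false
set_option linter.unusedSectionVars false

noncomputable section

namespace Pool.Agent.H12.LN

open MeasureTheory Pool.Agent.H5R2.ON Pool.Agent.H717R2.ON3 Pool.Agent.H983R2.ONJ
open Pool.Agent.H983R2.ONJ.AuxFin269
open Pool.Agent.Q218.ON (EN ax)

variable {L : ℕ} [NeZero L]

/-- logarithmic profile -/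
def ph (r : ℝ) (q : ℕ) (p x : Tor L) : ℝ :=
  max 0 (1 - Real.log (max (2 * r) (tnorm (x - p)) / (2 * r)) / q)

theorem ph_inner {r : ℝ} (hr : 0 < r) (q : ℕ) {p x : Tor L} (h : tnorm (x - p) ≤ 2 * r) :
    ph r q p x = 1 := by
  unfold ph
  rw [max_eq_left h, div_self (by positivity), Real.log_one]
  simp

theorem ph_outer {r : ℝ} (hr : 0 < r) {q : ℕ} (hq : 1 ≤ q) {p x : Tor L}
    (h : 2 * r * Real.exp q ≤ tnorm (x - p)) : ph r q p x = 0 := by
  have hq0 : (0 : ℝ) < q := by exact_mod_cast hq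
  unfold ph
  refine max_eq_left ?_
  rw [sub_nonpos, le_div_iff₀ hq0, one_mul, Real.le_log_iff_exp_le (by positivity),
    le_div_iff₀ (by positivity)]
  calc Real.exp q * (2 * r) = 2 * r * Real.exp q := by ring
    _ ≤ _ := h
    _ ≤ _ := le_max_right _ _

theorem log_diff {s t : ℝ} (hs : 0 < s) (ht : 0 < t) :
    |Real.log s - Real.log t| ≤ |s - t| / min s t := by
  rcases le_total s t with h | h
  · rw [min_eq_left h, abs_sub_comm s t, abs_of_nonneg (by linarith : 0 ≤ t - s),
      abs_sub_comm, abs_of_nonneg (sub_nonneg.2 (Real.log_le_log hs h)),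
      ← Real.log_div ht.ne' hs.ne']
    refine (Real.log_le_sub_one_of_pos (by positivity)).trans (le_of_eq ?_)
    field_simp
  · rw [min_eq_right h, abs_of_nonneg (by linarith : 0 ≤ s - t),
      abs_of_nonneg (sub_nonneg.2 (Real.log_le_log ht h)),
      ← Real.log_div hs.ne' ht.ne']
    refine (Real.log_le_sub_one_of_pos (by positivity)).trans (le_of_eq ?_)
    field_simp

theorem ph_lip {r : ℝ} (hr : 0 < r) {q : ℕ} (hq : 1 ≤ q) (p x y : Tor L) :
    |ph r q p x - ph r q p y| ≤ tnorm (x - y) /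
      (q * min (max (2 * r) (tnorm (x - p))) (max (2 * r) (tnorm (y - p)))) := by
  have hq0 : (0 : ℝ) < q := by exact_mod_cast hq
  obtain ⟨s, hs⟩ : ∃ s, s = max (2 * r) (tnorm (x - p)) := ⟨_, rfl⟩
  obtain ⟨t, ht⟩ : ∃ t, t = max (2 * r) (tnorm (y - p)) := ⟨_, rfl⟩
  have hs0 : 0 < s := by rw [hs]; exact lt_max_of_lt_left (by positivity)
  have ht0 : 0 < t := by rw [ht]; exact lt_max_of_lt_left (by positivity)
  have hst : |s - t| ≤ tnorm (x - y) := by
    have h1 : |s - t| ≤ |tnorm (x - p) - tnorm (y - p)| := by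
      rw [hs, ht]
      have := abs_max_sub_max_le_max (2 * r) (tnorm (x - p)) (2 * r) (tnorm (y - p))
      refine this.trans ?_
      rw [sub_self, abs_zero]
      exact max_le (abs_nonneg _) le_rfl
    refine h1.trans ?_
    have h2 := abs_tnorm_sub_le (x - p) (y - p)
    rwa [sub_sub_sub_cancel_right] at h2
  unfold ph
  rw [← hs, ← ht]
  have h1 : |max 0 (1 - Real.log (s / (2 * r)) / q) - max 0 (1 - Real.log (t / (2 * r)) / q)| ≤
      |Real.log s - Real.log t| / q := by
    have := abs_max_sub_max_le_max 0 (1 - Real.log (s / (2 * r)) / q) 0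
      (1 - Real.log (t / (2 * r)) / q)
    refine this.trans ?_
    rw [sub_self, abs_zero]
    refine max_le (by positivity) ?_
    rw [Real.log_div hs0.ne' (by positivity), Real.log_div ht0.ne' (by positivity)]
    have e : 1 - (Real.log s - Real.log (2 * r)) / q - (1 - (Real.log t - Real.log (2 * r)) / q) =
        -((Real.log s - Real.log t) / q) := by ring
    rw [e, abs_neg, abs_div, abs_of_pos hq0]
  refine h1.trans ?_
  have h2 := (log_diff hs0 ht0).trans (div_le_div_of_nonneg_right hst (lt_min hs0 ht0).le)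
  calc |Real.log s - Real.log t| / q ≤ (tnorm (x - y) / min s t) / q :=
        div_le_div_of_nonneg_right h2 hq0.le
    _ = _ := by rw [div_div, mul_comm]

/-- the weight -/
def wg (r : ℝ) (q : ℕ) (p x : Tor L) : ℝ :=
  if tnorm (x - p) ≤ 2 * r * Real.exp q then 1 / (max (2 * r) (tnorm (x - p))) ^ 2 else 0

theorem wg_nonneg (r : ℝ) (q : ℕ) (p x : Tor L) : 0 ≤ wg r q p x := by
  unfold wg
  split_ifs <;> positivity

theorem ph_sq {r : ℝ} (hr : 0 < r) {q : ℕ} (hq : 1 ≤ q) (p x y : Tor L) :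
    (ph r q p x - ph r q p y) ^ 2 ≤ tnorm (x - y) ^ 2 / q ^ 2 * (wg r q p x + wg r q p y) := by
  have hq0 : (0 : ℝ) < q := by exact_mod_cast hq
  have hexp := Real.exp_pos (q : ℝ)
  have hexp1 : 1 ≤ Real.exp (q : ℝ) := Real.one_le_exp hq0.le
  have key : ∀ x y : Tor L, tnorm (x - p) ≤ tnorm (y - p) →
      (ph r q p x - ph r q p y) ^ 2 ≤ tnorm (x - y) ^ 2 / q ^ 2 * (wg r q p x + wg r q p y) := by
    intro x y hxy
    have hw := wg_nonneg r q p y
    by_cases hx : tnorm (x - p) ≤ 2 * r * Real.exp q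
    · have h1 := ph_lip hr hq p x y
      have h2 : min (max (2 * r) (tnorm (x - p))) (max (2 * r) (tnorm (y - p))) =
          max (2 * r) (tnorm (x - p)) := min_eq_left (max_le_max le_rfl hxy)
      rw [h2] at h1
      have h3 : (ph r q p x - ph r q p y) ^ 2 ≤
          (tnorm (x - y) / (q * max (2 * r) (tnorm (x - p)))) ^ 2 := by
        rw [← sq_abs]
        exact pow_le_pow_left₀ (abs_nonneg _) h1 2
      refine h3.trans ?_
      have h4 : (tnorm (x - y) / (q * max (2 * r) (tnorm (x - p)))) ^ 2 =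
          tnorm (x - y) ^ 2 / q ^ 2 * wg r q p x := by
        unfold wg
        rw [if_pos hx, div_pow, mul_pow]
        ring
      rw [h4]
      refine mul_le_mul_of_nonneg_left ?_ (by positivity)
      linarith
    · push Not at hx
      rw [ph_outer hr hq hx.le, ph_outer hr hq (hx.le.trans hxy), sub_zero]
      have hw' := wg_nonneg r q p x
      rw [zero_pow two_ne_zero]
      exact mul_nonneg (by positivity) (add_nonneg hw' hw)
  rcases le_total (tnorm (x - p)) (tnorm (y - p)) with h | h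
  · exact key x y h
  · have h1 := key y x h
    rw [tnorm_sub_comm x y, add_comm (wg r q p x)]
    have h2 : (ph r q p x - ph r q p y) ^ 2 = (ph r q p y - ph r q p x) ^ 2 := by ring
    rw [h2]
    exact h1

/-- sum over the shells -/
theorem wg_sum : ∃ K : ℝ, 0 < K ∧ ∀ (L : ℕ) [NeZero L] (p : Tor L) (r : ℝ), 1 ≤ r → ∀ n : ℕ,
    ∑ x : Tor L, wg r n p x ≤ K * (1 + n) := by
  obtain ⟨K0, hK0, hK⟩ := card_ball_le
  refine ⟨4 * Real.exp 1 ^ 2 * K0, by positivity, ?_⟩
  intro L _ p r hr n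
  have he : 1 ≤ Real.exp 1 := Real.one_le_exp (by norm_num)
  have he2 : 1 ≤ Real.exp 1 ^ 2 := one_le_pow₀ he
  induction n with
  | zero =>
    have h1 : ∀ x : Tor L, wg r 0 p x ≤ if tnorm (x - p) ≤ 2 * r then 1 / (2 * r) ^ 2 else 0 := by
      intro x
      unfold wg
      simp only [Nat.cast_zero, Real.exp_zero, mul_one]
      split_ifs with h
      · refine one_div_le_one_div_of_le (by positivity) ?_
        exact pow_le_pow_left₀ (by positivity) (le_max_left _ _) 2
      · exact le_rfl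
    calc ∑ x : Tor L, wg r 0 p x ≤ ∑ x : Tor L, if tnorm (x - p) ≤ 2 * r then
          1 / (2 * r) ^ 2 else 0 := Finset.sum_le_sum fun x _ => h1 x
      _ = ((Finset.univ.filter fun x : Tor L => tnorm (x - p) ≤ 2 * r).card : ℝ) *
          (1 / (2 * r) ^ 2) := by
          rw [← Finset.sum_filter, Finset.sum_const, nsmul_eq_mul]
      _ ≤ (K0 * (1 + 2 * r) ^ 2) * (1 / (2 * r) ^ 2) :=
          mul_le_mul_of_nonneg_right (hK L p (2 * r) (by linarith)) (by positivity)
      _ ≤ (K0 * (2 * (2 * r)) ^ 2) * (1 / (2 * r) ^ 2) := by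
          refine mul_le_mul_of_nonneg_right ?_ (by positivity)
          refine mul_le_mul_of_nonneg_left ?_ hK0.le
          exact pow_le_pow_left₀ (by positivity) (by linarith) 2
      _ = 4 * K0 := by field_simp; ring
      _ ≤ 4 * Real.exp 1 ^ 2 * K0 * (1 + ((0 : ℕ) : ℝ)) := by
          rw [Nat.cast_zero, add_zero, mul_one]
          nlinarith
  | succ n ih =>
    have hen := Real.exp_pos (n : ℝ)
    have hen1 : 1 ≤ Real.exp (n : ℝ) := Real.one_le_exp (Nat.cast_nonneg n)
    have hsucc : Real.exp ((n + 1 : ℕ) : ℝ) = Real.exp n * Real.exp 1 := by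
      rw [Nat.cast_add, Nat.cast_one, Real.exp_add]
    have h1 : ∀ x : Tor L, wg r (n + 1) p x ≤ wg r n p x +
        if tnorm (x - p) ≤ 2 * r * Real.exp ((n + 1 : ℕ) : ℝ) then
          1 / (2 * r * Real.exp n) ^ 2 else 0 := by
      intro x
      by_cases h : tnorm (x - p) ≤ 2 * r * Real.exp n
      · have h2 : tnorm (x - p) ≤ 2 * r * Real.exp ((n + 1 : ℕ) : ℝ) := by
          rw [hsucc]
          refine h.trans ?_
          rw [← mul_assoc]
          exact le_mul_of_one_le_right (by positivity) he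
        unfold wg
        rw [if_pos h, if_pos h2, if_pos h2]
        have : 0 ≤ 1 / (2 * r * Real.exp n) ^ 2 := by positivity
        linarith
      · unfold wg
        rw [if_neg h, zero_add]
        split_ifs with h2
        · push Not at h
          refine one_div_le_one_div_of_le (by positivity) ?_
          exact pow_le_pow_left₀ (by positivity) (h.le.trans (le_max_right _ _)) 2
        · exact le_rfl
    have h2 : (∑ x : Tor L, if tnorm (x - p) ≤ 2 * r * Real.exp ((n + 1 : ℕ) : ℝ) then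
          1 / (2 * r * Real.exp n) ^ 2 else 0) ≤ 4 * Real.exp 1 ^ 2 * K0 := by
      calc (∑ x : Tor L, if tnorm (x - p) ≤ 2 * r * Real.exp ((n + 1 : ℕ) : ℝ) then
          1 / (2 * r * Real.exp n) ^ 2 else 0)
          = ((Finset.univ.filter fun x : Tor L =>
              tnorm (x - p) ≤ 2 * r * Real.exp ((n + 1 : ℕ) : ℝ)).card : ℝ) *
            (1 / (2 * r * Real.exp n) ^ 2) := by
            rw [← Finset.sum_filter, Finset.sum_const, nsmul_eq_mul]
        _ ≤ (K0 * (1 + 2 * r * Real.exp ((n + 1 : ℕ) : ℝ)) ^ 2) *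
            (1 / (2 * r * Real.exp n) ^ 2) :=
            mul_le_mul_of_nonneg_right (hK L p _ (by positivity)) (by positivity)
        _ ≤ (K0 * (2 * (2 * r * Real.exp ((n + 1 : ℕ) : ℝ))) ^ 2) *
            (1 / (2 * r * Real.exp n) ^ 2) := by
            refine mul_le_mul_of_nonneg_right ?_ (by positivity)
            refine mul_le_mul_of_nonneg_left ?_ hK0.le
            refine pow_le_pow_left₀ (by positivity) ?_ 2
            have : 1 ≤ 2 * r * Real.exp ((n + 1 : ℕ) : ℝ) := by
              rw [hsucc]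
              have h3 : 1 ≤ Real.exp n * Real.exp 1 := one_le_mul_of_one_le_of_one_le hen1 he
              nlinarith
            linarith
        _ = 4 * Real.exp 1 ^ 2 * K0 := by
            rw [hsucc]
            field_simp
            norm_num
    calc ∑ x : Tor L, wg r (n + 1) p x ≤ ∑ x : Tor L, (wg r n p x +
          if tnorm (x - p) ≤ 2 * r * Real.exp ((n + 1 : ℕ) : ℝ) then
          1 / (2 * r * Real.exp n) ^ 2 else 0) := Finset.sum_le_sum fun x _ => h1 x
      _ = ∑ x : Tor L, wg r n p x + ∑ x : Tor L,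
          (if tnorm (x - p) ≤ 2 * r * Real.exp ((n + 1 : ℕ) : ℝ) then
          1 / (2 * r * Real.exp n) ^ 2 else 0) := Finset.sum_add_distrib
      _ ≤ 4 * Real.exp 1 ^ 2 * K0 * (1 + n) + 4 * Real.exp 1 ^ 2 * K0 := add_le_add ih h2
      _ = 4 * Real.exp 1 ^ 2 * K0 * (1 + ((n + 1 : ℕ) : ℝ)) := by push_cast; ring

/-- second moments -/
theorem mom2 (a : ℝ) (ha : 0 < a) : ∃ K : ℝ, 0 < K ∧ ∀ (A : ℝ), 0 ≤ A → ∀ (L : ℕ) [NeZero L]
    (c : Tor L × Tor L → ℝ), ExpC A a c → ∀ f : Tor L → ℝ, (∀ x, 0 ≤ f x) →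
      ∑ e : Tor L × Tor L, c e * (tnorm (e.1 - e.2) ^ 2 * (f e.1 + f e.2)) ≤
        A * K * ∑ x, f x := by
  obtain ⟨K, hK, hs⟩ := lsum a ha
  refine ⟨2 * K, by positivity, ?_⟩
  intro A hA L _ c hc f hf
  have hg : ∀ x : Tor L, ∑ y : Tor L, tnorm (y - x) ^ 2 * Real.exp (-a * tnorm (y - x)) ≤ K := by
    intro x
    have h1 := sum_shift (fun z : Tor L => tnorm z ^ 2 * Real.exp (-a * tnorm z)) x
    rw [h1]
    refine le_trans (Finset.sum_le_sum fun z _ => ?_) (hs L)
    refine mul_le_mul_of_nonneg_right ?_ (Real.exp_pos _).le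
    have := tnorm_nonneg z
    exact pow_le_pow_left₀ this (by linarith) 2
  have h1 : ∑ e : Tor L × Tor L, c e * (tnorm (e.1 - e.2) ^ 2 * f e.1) ≤ A * K * ∑ x, f x := by
    rw [Fintype.sum_prod_type, Finset.mul_sum]
    refine Finset.sum_le_sum fun x _ => ?_
    calc ∑ y : Tor L, c (x, y) * (tnorm (x - y) ^ 2 * f x)
        ≤ ∑ y : Tor L, (A * f x) * (tnorm (y - x) ^ 2 * Real.exp (-a * tnorm (y - x))) := by
          refine Finset.sum_le_sum fun y _ => ?_
          have h2 := (hc (x, y)).2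
          rw [tnorm_sub_comm x y]
          calc c (x, y) * (tnorm (y - x) ^ 2 * f x)
              ≤ (A * Real.exp (-a * tnorm (y - x))) * (tnorm (y - x) ^ 2 * f x) :=
                mul_le_mul_of_nonneg_right h2 (mul_nonneg (sq_nonneg _) (hf x))
            _ = _ := by ring
      _ = (A * f x) * ∑ y : Tor L, tnorm (y - x) ^ 2 * Real.exp (-a * tnorm (y - x)) := by
          rw [Finset.mul_sum]
      _ ≤ (A * f x) * K := mul_le_mul_of_nonneg_left (hg x) (mul_nonneg hA (hf x))
      _ = A * K * f x := by ring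
  have h2 : ∑ e : Tor L × Tor L, c e * (tnorm (e.1 - e.2) ^ 2 * f e.2) ≤ A * K * ∑ x, f x := by
    rw [Fintype.sum_prod_type_right, Finset.mul_sum]
    refine Finset.sum_le_sum fun y _ => ?_
    calc ∑ x : Tor L, c (x, y) * (tnorm (x - y) ^ 2 * f y)
        ≤ ∑ x : Tor L, (A * f y) * (tnorm (x - y) ^ 2 * Real.exp (-a * tnorm (x - y))) := by
          refine Finset.sum_le_sum fun x _ => ?_
          have h2 := (hc (x, y)).2
          simp only at h2
          rw [tnorm_sub_comm y x] at h2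
          calc c (x, y) * (tnorm (x - y) ^ 2 * f y)
              ≤ (A * Real.exp (-a * tnorm (x - y))) * (tnorm (x - y) ^ 2 * f y) :=
                mul_le_mul_of_nonneg_right h2 (mul_nonneg (sq_nonneg _) (hf y))
            _ = _ := by ring
      _ = (A * f y) * ∑ x : Tor L, tnorm (x - y) ^ 2 * Real.exp (-a * tnorm (x - y)) := by
          rw [Finset.mul_sum]
      _ ≤ (A * f y) * K := mul_le_mul_of_nonneg_left (hg y) (mul_nonneg hA (hf y))
      _ = A * K * f y := by ring
  have h3 : ∑ e : Tor L × Tor L, c e * (tnorm (e.1 - e.2) ^ 2 * (f e.1 + f e.2)) =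
      ∑ e : Tor L × Tor L, c e * (tnorm (e.1 - e.2) ^ 2 * f e.1) +
      ∑ e : Tor L × Tor L, c e * (tnorm (e.1 - e.2) ^ 2 * f e.2) := by
    rw [← Finset.sum_add_distrib]
    exact Finset.sum_congr rfl fun e _ => by ring
  rw [h3]
  linarith

/-- energy of the profile -/
theorem ph_energy (a : ℝ) (ha : 0 < a) : ∃ K : ℝ, 1 ≤ K ∧ ∀ (A : ℝ), 0 ≤ A →
    ∀ (L : ℕ) [NeZero L] (c : Tor L × Tor L → ℝ), ExpC A a c → ∀ (p : Tor L) (r : ℝ), 1 ≤ r →
      ∀ q : ℕ, 1 ≤ q → ∑ e, c e * (ph r q p e.1 - ph r q p e.2) ^ 2 ≤ K * A / q := by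
  obtain ⟨K1, hK1, h1⟩ := mom2 a ha
  obtain ⟨K2, hK2, h2⟩ := wg_sum
  refine ⟨max 1 (2 * K1 * K2), le_max_left _ _, ?_⟩
  intro A hA L _ c hc p r hr q hq
  have hq0 : (0 : ℝ) < q := by exact_mod_cast hq
  have hq1 : (1 : ℝ) ≤ q := by exact_mod_cast hq
  calc ∑ e, c e * (ph r q p e.1 - ph r q p e.2) ^ 2
      ≤ ∑ e : Tor L × Tor L, (1 / (q : ℝ) ^ 2) *
        (c e * (tnorm (e.1 - e.2) ^ 2 * (wg r q p e.1 + wg r q p e.2))) := by
        refine Finset.sum_le_sum fun e _ => ?_
        have h3 := mul_le_mul_of_nonneg_left (ph_sq (by linarith) hq p e.1 e.2) (hc e).1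
        refine h3.trans (le_of_eq ?_)
        ring
    _ = (1 / (q : ℝ) ^ 2) * ∑ e : Tor L × Tor L,
        (c e * (tnorm (e.1 - e.2) ^ 2 * (wg r q p e.1 + wg r q p e.2))) := by
        rw [Finset.mul_sum]
    _ ≤ (1 / (q : ℝ) ^ 2) * (A * K1 * (K2 * (1 + q))) := by
        refine mul_le_mul_of_nonneg_left ?_ (by positivity)
        refine (h1 A hA L c hc _ (fun x => wg_nonneg r q p x)).trans ?_
        exact mul_le_mul_of_nonneg_left (h2 L p r hr q) (by positivity)
    _ ≤ (1 / (q : ℝ) ^ 2) * (A * K1 * (K2 * (2 * q))) := by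
        gcongr
        linarith
    _ = (2 * K1 * K2) * A / q := by field_simp
    _ ≤ max 1 (2 * K1 * K2) * A / q := by
        gcongr
        exact le_max_right _ _

end Pool.Agent.H12.LN
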