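import Pool.Agent.H12.LN.Prof
import Pool.Graph.R_seed8.Y13.QM.Trunc

/-! # The steps -/

set_option autoImplicit false
set_option linter.unusedSectionVars false

noncomputable section

namespace Pool.Agent.H12.LN

open MeasureTheory Pool.Agent.H5R2.ON Pool.Agent.H717R2.ON3 Pool.Agent.H983R2.ONJ
open Pool.Agent.H983R2.ONJ.AuxFin269
open Pool.Agent.Q218.ON (EN ax)
open Pool.Agent.Y13.QM (trunc_lin)

/-- The second moments of the components of the spin in the centre of a ball of radius `R` are at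
most `u`, for all couplings in the class and all boundary conditions. -/
def UBJ (N : ℕ) (A a R u : ℝ) : Prop :=
  ∀ (L : ℕ) [NeZero L], 2 * R < L → ∀ c : Tor L × Tor L → ℝ, ExpC A a c →
    ∀ (p : Tor L) (η : Conf N L) (i : Fin N),
    gH (pS c) (ball p R) η (fun S => cc i (S p) ^ 2) ≤ u

theorem mem_ball {L : ℕ} [NeZero L] {p x : Tor L} {R : ℝ} : x ∈ ball p R ↔ tnorm (x - p) ≤ R := by
  unfold ball
  simp

theorem ball_sub {L : ℕ} [NeZero L] {p x : Tor L} {r R : ℝ} (h : tnorm (x - p) + r ≤ R) :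
    ball x r ⊆ ball p R := by
  intro y hy
  rw [mem_ball] at hy ⊢
  have := tnorm_add_le (y - x) (x - p)
  rw [sub_add_sub_cancel] at this
  linarith

theorem UBJ_mono {N : ℕ} (hN : N ≠ 0) {A a r R u u' : ℝ} (h : UBJ N A a r u) (hr : r ≤ R)
    (hu : u ≤ u') : UBJ N A a R u' := by
  intro L _ hL c hc p η i
  refine (sq_mono hN c (ball_sub (p := p) (x := p) (r := r) ?_) p i u
    (fun η' => h L (by linarith) c hc p η' i) η).trans hu
  rw [sub_self, tnorm_zero]
  linarith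

theorem MBJ_monoR {N : ℕ} (hN : N ≠ 0) {A a r R m m' : ℝ} (h : MBJ N A a r m) (hr : r ≤ R)
    (hm : m ≤ m') : MBJ N A a R m' := by
  intro L _ hL c hc p η i
  refine (lin_mono hN c (ball_sub (p := p) (x := p) (r := r) ?_) p i m
    (fun η' => h L (by linarith) c hc p η' i) η).trans hm
  rw [sub_self, tnorm_zero]
  linarith

theorem UBJ_one {N : ℕ} (hN : N ≠ 0) (A a R : ℝ) : UBJ N A a R 1 := by
  intro L _ hL c hc p η i
  have h1 := gH_mono hN (continuous_pS c) (ball p R) η (F := fun S => cc i (S p) ^ 2)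
    (G := fun _ => (1 : ℝ)) ((cont_cc i p).pow 2).measurable measurable_const 1
    (fun S => by
      rw [abs_of_nonneg (sq_nonneg _)]
      have h2 := sum_sq_erase i (S p)
      have h3 : 0 ≤ ∑ k ∈ Finset.univ.erase i, (S p : EN N) k ^ 2 :=
        Finset.sum_nonneg fun k _ => sq_nonneg _
      rw [cc_eq]
      linarith)
    (fun S => by simp)
    (fun S => by
      have h2 := sum_sq_erase i (S p)
      have h3 : 0 ≤ ∑ k ∈ Finset.univ.erase i, (S p : EN N) k ^ 2 :=
        Finset.sum_nonneg fun k _ => sq_nonneg _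
      rw [cc_eq]
      linarith)
  rwa [gH_const hN (continuous_pS c)] at h1

section geo

variable {L : ℕ} [NeZero L] {r : ℝ} (hr : 1 ≤ r) {q : ℕ} (hq : 1 ≤ q)
  {c : Tor L × Tor L → ℝ} (hrange : ∀ e, c e ≠ 0 → tnorm (e.2 - e.1) ≤ r) (p : Tor L)

include hr hq

theorem geo_out (x : Tor L) (hx : x ∉ ball p (2 * r * (Real.exp q + 1))) : ph r q p x = 0 := by
  rw [mem_ball] at hx
  push Not at hx
  refine ph_outer (by linarith) hq ?_
  have : 2 * r * (Real.exp q + 1) = 2 * r * Real.exp q + 2 * r := by ring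
  linarith

include hrange

omit hq in
theorem geo_loc (e : Tor L × Tor L) (he : e.1 ∈ ball p r ∨ e.2 ∈ ball p r) :
    c e * (ph r q p e.1 - ph r q p e.2) = 0 := by
  by_cases h : c e = 0
  · rw [h, zero_mul]
  · have h1 := hrange e h
    have h1' : tnorm (e.1 - e.2) ≤ r := by rw [tnorm_sub_comm]; exact h1
    rw [mem_ball, mem_ball] at he
    have h2 : tnorm (e.1 - p) ≤ 2 * r ∧ tnorm (e.2 - p) ≤ 2 * r := by
      rcases he with he | he
      · have h3 := tnorm_add_le (e.2 - e.1) (e.1 - p)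
        rw [sub_add_sub_cancel] at h3
        constructor <;> linarith
      · have h3 := tnorm_add_le (e.1 - e.2) (e.2 - p)
        rw [sub_add_sub_cancel] at h3
        constructor <;> linarith
    rw [ph_inner (by linarith) q h2.1, ph_inner (by linarith) q h2.2, sub_self, mul_zero]

theorem geo_in (e : Tor L × Tor L) (he : c e * (ph r q p e.1 - ph r q p e.2) ≠ 0) :
    ball e.1 r ⊆ ball p (2 * r * (Real.exp q + 1)) ∧
      ball e.2 r ⊆ ball p (2 * r * (Real.exp q + 1)) := by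
  have h : c e ≠ 0 := fun h => he (by rw [h, zero_mul])
  have h1 := hrange e h
  have h1' : tnorm (e.1 - e.2) ≤ r := by rw [tnorm_sub_comm]; exact h1
  have h2 : tnorm (e.1 - p) ≤ 2 * r * Real.exp q ∨ tnorm (e.2 - p) ≤ 2 * r * Real.exp q := by
    by_contra hcon
    push Not at hcon
    apply he
    rw [ph_outer (by linarith) hq hcon.1.le, ph_outer (by linarith) hq hcon.2.le, sub_self,
      mul_zero]
  have e0 : 2 * r * (Real.exp q + 1) = 2 * r * Real.exp q + 2 * r := by ring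
  have h3 : tnorm (e.1 - p) + r ≤ 2 * r * (Real.exp q + 1) ∧
      tnorm (e.2 - p) + r ≤ 2 * r * (Real.exp q + 1) := by
    rcases h2 with he | he
    · have h3 := tnorm_add_le (e.2 - e.1) (e.1 - p)
      rw [sub_add_sub_cancel] at h3
      constructor <;> linarith
    · have h3 := tnorm_add_le (e.1 - e.2) (e.2 - p)
      rw [sub_add_sub_cancel] at h3
      constructor <;> linarith
  exact ⟨ball_sub h3.1, ball_sub h3.2⟩

end geo

/-- the energy of the score for finite range couplings -/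
theorem iota_fin (a : ℝ) (ha : 0 < a) : ∃ K : ℝ, 1 ≤ K ∧ ∀ (A : ℝ), 0 ≤ A → ∀ N : ℕ, 2 ≤ N →
    ∀ r : ℝ, 1 ≤ r → ∀ q : ℕ, 1 ≤ q → ∀ u : ℝ, 0 ≤ u → UBJ N A a r u →
    ∀ (L : ℕ) [NeZero L], 2 * (2 * r * (Real.exp q + 1)) < L →
    ∀ c : Tor L × Tor L → ℝ, ExpC A a c →
      (∀ e, c e ≠ 0 → tnorm (e.2 - e.1) ≤ r) → ∀ (p : Tor L) (η : Conf N L) (i : Fin N),
      ∫ S, ‖Wv c (ph r q p) i S‖ ^ 2 ∂(GM c (ball p (2 * r * (Real.exp q + 1))) η) ≤
        (K * A / q) * (((N : ℝ) - 2) * u + 1) := by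
  obtain ⟨K, hK, h1⟩ := ph_energy a ha
  refine ⟨K, hK, ?_⟩
  intro A hA N hN r hr q hq u hu hU L _ hL c hc hrange p η i
  have hN0 : N ≠ 0 := by omega
  have hN2 : (0 : ℝ) ≤ N - 2 := by
    have : (2 : ℝ) ≤ N := by exact_mod_cast hN
    linarith
  have hL' : 2 * r < L := by
    have h3 : 2 * r ≤ 2 * (2 * r * (Real.exp q + 1)) := by
      have := Real.exp_pos (q : ℝ)
      nlinarith
    linarith
  refine (iota_le hN (geo_out hr hq p) c (fun e => (hc e).1) η i u ?_).trans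
    (mul_le_mul_of_nonneg_right (h1 A hA L c hc p r hr q hq) (by positivity))
  intro e he
  obtain ⟨hb1, hb2⟩ := geo_in hr hq hrange p e he
  have h2 : ∀ x : Tor L, ball x r ⊆ ball p (2 * r * (Real.exp q + 1)) →
      ∫ S, (S x : EN N) i ^ 2 ∂(GM c (ball p (2 * r * (Real.exp q + 1))) η) ≤ u := by
    intro x hx
    rw [← gH_eq hN0 c _ η (F := fun S => (S x : EN N) i ^ 2)
      (by fun_prop : Continuous fun S : Conf N L => (S x : EN N) i ^ 2).measurable]
    exact sq_mono hN0 c hx x i u (fun η' => hU L hL' c hc x η' i) η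
  exact ⟨h2 _ hb1, h2 _ hb2⟩

/-- the step for the second moments -/
theorem ustep (a : ℝ) (ha : 0 < a) : ∃ K C : ℝ, 1 ≤ K ∧ 0 < C ∧ ∀ (A : ℝ), 0 ≤ A → ∀ N : ℕ,
    2 ≤ N → ∀ r : ℝ, 1 ≤ r → ∀ q : ℕ, 1 ≤ q → ∀ u : ℝ, 1 / (N : ℝ) ≤ u → UBJ N A a r u →
    UBJ N A a (2 * r * (Real.exp q + 1)) (max (2 / (N : ℝ)) (8 * K * A * u ^ 2 / (N * q)) +
      (Real.exp (C * (1 + A) * (2 * r * (Real.exp q + 1)) ^ 2 * Real.exp (-(a / 2) * r)) - 1)) := by
  obtain ⟨K, hK, hiota⟩ := iota_fin a ha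
  obtain ⟨C, hC, htr⟩ := trunc_lin a ha
  refine ⟨K, C, hK, hC, ?_⟩
  intro A hA N hN r hr q hq u hu hU L _ hL c hc p η i
  have hN0 : N ≠ 0 := by omega
  have hNpos : (0 : ℝ) < N := by exact_mod_cast Nat.pos_of_ne_zero hN0
  have hN2 : (2 : ℝ) ≤ N := by exact_mod_cast hN
  have hq0 : (0 : ℝ) < q := by exact_mod_cast hq
  have hu0 : 0 ≤ u := le_trans (by positivity) hu
  have hNu : 1 ≤ N * u := by
    rw [div_le_iff₀ hNpos] at hu
    linarith
  have hR1 : 1 ≤ 2 * r * (Real.exp q + 1) := by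
    have := Real.exp_pos (q : ℝ)
    nlinarith
  have hL' : 2 * r < L := by
    have h3 : 2 * r ≤ 2 * (2 * r * (Real.exp q + 1)) := by
      have := Real.exp_pos (q : ℝ)
      nlinarith
    linarith
  obtain ⟨k, n, hn, hkc, hkr, hcomp⟩ := htr A hA L c hc p (2 * r * (Real.exp q + 1)) r hR1
    (by linarith)
  obtain ⟨c', hc'⟩ : ∃ c' : Tor L × Tor L → ℝ, c' = fun e => (k e : ℝ) / n := ⟨_, rfl⟩
  have hHeq : (fun S : Conf N L => (1 / (n : ℝ)) * enG (gJ k) S) = pS c' := by
    funext S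
    rw [hc']
    exact enG_gJ k n S
  have hFc : Continuous (fun S : Conf N L => cc i (S p) ^ 2) := (cont_cc i p).pow 2
  have h2 := hcomp N hN0 η (fun S => cc i (S p) ^ 2) hFc.measurable (fun S => by
      rw [abs_of_nonneg (sq_nonneg _)]
      have h2 := sum_sq_erase i (S p)
      have h3 : 0 ≤ ∑ k ∈ Finset.univ.erase i, (S p : EN N) k ^ 2 :=
        Finset.sum_nonneg fun k _ => sq_nonneg _
      rw [cc_eq]
      linarith)
  rw [hHeq] at h2
  rw [← hc'] at hkc
  have hkr' : ∀ e, c' e ≠ 0 → tnorm (e.2 - e.1) ≤ r := by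
    intro e he
    refine hkr e fun h0 => he ?_
    rw [hc']
    simp only [h0, Nat.cast_zero, zero_div]
  -- the main inequality
  obtain ⟨s, hs⟩ : ∃ s, s = gH (pS c') (ball p (2 * r * (Real.exp q + 1))) η
    (fun S => cc i (S p) ^ 2) := ⟨_, rfl⟩
  have hsI : ∫ S, (S p : EN N) i ^ 2 ∂(GM c' (ball p (2 * r * (Real.exp q + 1))) η) = s := by
    rw [hs, gH_eq hN0 c' _ η hFc.measurable]
    rfl
  have hι := hiota A hA N hN r hr q hq u hu0 hU L hL c' hkc hkr' p η i
  have hb := absB hN0 (φ := ph r q p) (Λ' := ball p r) (Λ := ball p (2 * r * (Real.exp q + 1)))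
    (ball_sub (by
      rw [sub_self, tnorm_zero]
      have := Real.exp_pos (q : ℝ)
      nlinarith)) (geo_out hr hq p) c' η i (z := p)
    (ph_inner (by linarith) q (by rw [sub_self, tnorm_zero]; linarith))
    (geo_loc hr hkr' p) u _ hu0 (fun η' j => hU L hL' c' hkc p η' j) hι
  rw [hsI] at hb
  have hs0 : 0 ≤ s := by
    rw [← hsI]
    exact integral_nonneg fun S => sq_nonneg _
  have hmain : s ≤ max (2 / (N : ℝ)) (8 * K * A * u ^ 2 / (N * q)) := by
    by_cases h : s ≤ 2 / N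
    · exact h.trans (le_max_left _ _)
    · push Not at h
      refine le_trans ?_ (le_max_right _ _)
      have hsN : 2 < N * s := by
        rw [div_lt_iff₀ hNpos] at h
        linarith
      have hspos : 0 < s := lt_trans (by positivity) h
      have h3 : (N * s / 2) ^ 2 ≤ (N * s - 1) ^ 2 := pow_le_pow_left₀ (by positivity) (by linarith) 2
      have h4 : u * (K * A / q * (((N : ℝ) - 2) * u + 1)) ≤ u * (K * A / q * (2 * N * u)) := by
        refine mul_le_mul_of_nonneg_left (mul_le_mul_of_nonneg_left ?_ (by positivity)) hu0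
        nlinarith
      have h5 : (N * s / 2) ^ 2 ≤ s * (u * (K * A / q * (2 * N * u))) :=
        h3.trans (hb.trans (mul_le_mul_of_nonneg_left h4 hs0))
      have h6 : N ^ 2 * s ≤ 4 * (u * (K * A / q * (2 * N * u))) := by
        have h7 : s * (N ^ 2 * s) ≤ s * (4 * (u * (K * A / q * (2 * N * u)))) := by
          nlinarith
        exact le_of_mul_le_mul_left h7 hspos
      rw [le_div_iff₀ (by positivity)]
      have h8 : 4 * (u * (K * A / q * (2 * N * u))) = N * (8 * K * A * u ^ 2 / q) := by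
        field_simp
        ring
      rw [h8] at h6
      have h9 : N * s ≤ 8 * K * A * u ^ 2 / q := by
        have h7 : N * (N * s) ≤ N * (8 * K * A * u ^ 2 / q) := by
          linarith
        exact le_of_mul_le_mul_left h7 hNpos
      rw [le_div_iff₀ hq0] at h9
      linarith
  rw [← hs] at h2
  have h10 := (abs_le.1 h2).2
  linarith

/-- the step for the first moments -/
theorem mstep (a : ℝ) (ha : 0 < a) : ∃ K C : ℝ, 1 ≤ K ∧ 0 < C ∧ ∀ (A : ℝ), 0 ≤ A → ∀ N : ℕ,
    2 ≤ N → ∀ r : ℝ, 1 ≤ r → ∀ m : ℝ, 0 ≤ m → UBJ N A a r (3 / N) → MBJ N A a r m →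
    MBJ N A a (2 * r * (Real.exp 1 + 1)) (m * (√(4 * K * A) / ((N : ℝ) - 1)) +
      (Real.exp (C * (1 + A) * (2 * r * (Real.exp 1 + 1)) ^ 2 * Real.exp (-(a / 2) * r)) - 1)) := by
  obtain ⟨K, hK, hiota⟩ := iota_fin a ha
  obtain ⟨C, hC, htr⟩ := trunc_lin a ha
  refine ⟨K, C, hK, hC, ?_⟩
  intro A hA N hN r hr m hm0 hU hM L _ hL c hc p η i
  have hN0 : N ≠ 0 := by omega
  have hNpos : (0 : ℝ) < N := by exact_mod_cast Nat.pos_of_ne_zero hN0
  have hN2 : (2 : ℝ) ≤ N := by exact_mod_cast hN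
  have hR1 : 1 ≤ 2 * r * (Real.exp 1 + 1) := by
    have := Real.exp_pos (1 : ℝ)
    nlinarith
  have hL' : 2 * r < L := by
    have h3 : 2 * r ≤ 2 * (2 * r * (Real.exp 1 + 1)) := by
      have := Real.exp_pos (1 : ℝ)
      nlinarith
    linarith
  obtain ⟨k, n, hn, hkc, hkr, hcomp⟩ := htr A hA L c hc p (2 * r * (Real.exp 1 + 1)) r hR1
    (by linarith)
  obtain ⟨c', hc'⟩ : ∃ c' : Tor L × Tor L → ℝ, c' = fun e => (k e : ℝ) / n := ⟨_, rfl⟩
  have hHeq : (fun S : Conf N L => (1 / (n : ℝ)) * enG (gJ k) S) = pS c' := by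
    funext S
    rw [hc']
    exact enG_gJ k n S
  have hFc : Continuous (fun S : Conf N L => cc i (S p)) := cont_cc i p
  have h2 := hcomp N hN0 η (fun S => cc i (S p)) hFc.measurable (fun S => by
      have h2 := sum_sq_erase i (S p)
      have h3 : 0 ≤ ∑ k ∈ Finset.univ.erase i, (S p : EN N) k ^ 2 :=
        Finset.sum_nonneg fun k _ => sq_nonneg _
      rw [cc_eq]
      exact (sq_le_one_iff_abs_le_one _).1 (by linarith))
  rw [hHeq] at h2
  rw [← hc'] at hkc
  have hkr' : ∀ e, c' e ≠ 0 → tnorm (e.2 - e.1) ≤ r := by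
    intro e he
    refine hkr e fun h0 => he ?_
    rw [hc']
    simp only [h0, Nat.cast_zero, zero_div]
  have e1 : ((1 : ℕ) : ℝ) = 1 := Nat.cast_one
  have hι := hiota A hA N hN r hr 1 le_rfl (3 / N) (by positivity) hU L (by rw [e1]; exact hL) c'
    hkc hkr' p η i
  have hb := absA hN0 (φ := ph r 1 p) (Λ' := ball p r)
    (Λ := ball p (2 * r * (Real.exp (1 : ℕ) + 1)))
    (ball_sub (by
      rw [sub_self, tnorm_zero]
      have := Real.exp_pos ((1 : ℕ) : ℝ)
      nlinarith)) (geo_out hr le_rfl p) c' η i (z := p)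
    (ph_inner (by linarith) 1 (by rw [sub_self, tnorm_zero]; linarith))
    (geo_loc hr hkr' p) m _ hm0 (fun η' j => hM L hL' c' hkc p η' j) hι
  rw [e1] at hb
  have hsI : ∫ S, (S p : EN N) i ∂(GM c' (ball p (2 * r * (Real.exp 1 + 1))) η) =
      gH (pS c') (ball p (2 * r * (Real.exp 1 + 1))) η (fun S => cc i (S p)) := by
    rw [gH_eq hN0 c' _ η hFc.measurable]
    rfl
  rw [hsI] at hb
  have h3 : √(K * A / 1 * (((N : ℝ) - 2) * (3 / N) + 1)) ≤ √(4 * K * A) := by
    refine Real.sqrt_le_sqrt ?_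
    have h4 : ((N : ℝ) - 2) * (3 / N) + 1 ≤ 4 := by
      have : ((N : ℝ) - 2) * (3 / N) ≤ 3 := by
        rw [mul_div_assoc', div_le_iff₀ hNpos]
        linarith
      linarith
    have h5 : 0 ≤ K * A := by positivity
    rw [div_one]
    nlinarith
  have h4 : |gH (pS c') (ball p (2 * r * (Real.exp 1 + 1))) η (fun S => cc i (S p))| ≤
      m * (√(4 * K * A) / ((N : ℝ) - 1)) := by
    rw [mul_div_assoc', le_div_iff₀ (by linarith), mul_comm]
    exact hb.trans (mul_le_mul_of_nonneg_left h3 hm0)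
  have h5 : gH (pS c) (ball p (2 * r * (Real.exp 1 + 1))) η (fun S => cc i (S p)) =
      gH (pS c') (ball p (2 * r * (Real.exp 1 + 1))) η (fun S => cc i (S p)) +
      (gH (pS c) (ball p (2 * r * (Real.exp 1 + 1))) η (fun S => cc i (S p)) -
        gH (pS c') (ball p (2 * r * (Real.exp 1 + 1))) η (fun S => cc i (S p))) := by ring
  rw [h5]
  exact (abs_add_le _ _).trans (add_le_add h4 h2)

end Pool.Agent.H12.LN
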