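import Pool.Agent.H12.LN.Ibp

/-! # The vector form of the Ward identities -/

set_option autoImplicit false
set_option linter.unusedSectionVars false

noncomputable section

namespace Pool.Agent.H12.LN

open MeasureTheory Pool.Agent.H5R2.ON Pool.Agent.H717R2.ON3 Pool.Agent.H983R2.ONJ
open Pool.Agent.Q218.ON (EN)

variable {N L : ℕ} [NeZero L]

/-- the vector of the scores -/
def Wv (c : Tor L × Tor L → ℝ) (φ : Tor L → ℝ) (p : Fin N) (S : Conf N L) : EN N :=
  ∑ e, (c e * (φ e.1 - φ e.2)) • ((S e.1 : EN N) p • (S e.2 : EN N) - (S e.2 : EN N) p • (S e.1 : EN N))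

theorem sum_coord {ι : Type} (s : Finset ι) (f : ι → EN N) (k : Fin N) :
    (∑ e ∈ s, f e) k = ∑ e ∈ s, f e k := by
  have := map_sum (EuclideanSpace.proj (𝕜 := ℝ) k : EN N →L[ℝ] ℝ) f s
  simpa using this

theorem Wv_apply (c : Tor L × Tor L → ℝ) (φ : Tor L → ℝ) (p k : Fin N) (S : Conf N L) :
    Wv c φ p S k = Wk c φ p k S := by
  unfold Wv Wk
  rw [sum_coord]
  refine Finset.sum_congr rfl fun e _ => ?_
  simp only [PiLp.smul_apply, PiLp.sub_apply, smul_eq_mul]
  ring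

theorem Wk_self (c : Tor L × Tor L → ℝ) (φ : Tor L → ℝ) (p : Fin N) (S : Conf N L) :
    Wk c φ p p S = 0 := by
  unfold Wk
  refine Finset.sum_eq_zero fun e _ => ?_
  ring

@[fun_prop]
theorem cont_spin (u : Tor L) : Continuous fun S : Conf N L => (S u : EN N) :=
  continuous_subtype_val.comp (continuous_apply u)

@[fun_prop]
theorem cont_Wv (c : Tor L × Tor L → ℝ) (φ : Tor L → ℝ) (p : Fin N) :
    Continuous (Wv c φ p : Conf N L → EN N) := by
  unfold Wv
  fun_prop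

theorem inner_Wv (c : Tor L × Tor L → ℝ) (φ : Tor L → ℝ) (p : Fin N) (S : Conf N L) (u : Tor L) :
    inner ℝ (Wv c φ p S) (S u : EN N) =
      ∑ k ∈ Finset.univ.erase p, (S u : EN N) k * Wk c φ p k S := by
  rw [inner_sum', ← Finset.add_sum_erase _ _ (Finset.mem_univ p), Wv_apply, Wk_self, zero_mul,
    zero_add]
  refine Finset.sum_congr rfl fun k _ => ?_
  rw [Wv_apply, mul_comm]

theorem norm_sq_Wv (c : Tor L × Tor L → ℝ) (φ : Tor L → ℝ) (p : Fin N) (S : Conf N L) :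
    ‖Wv c φ p S‖ ^ 2 = ∑ k ∈ Finset.univ.erase p, Wk c φ p k S * Wk c φ p k S := by
  rw [← real_inner_self_eq_norm_sq, inner_sum', ← Finset.add_sum_erase _ _ (Finset.mem_univ p),
    Wv_apply, Wk_self, zero_mul, zero_add]
  refine Finset.sum_congr rfl fun k _ => ?_
  rw [Wv_apply]

theorem card_erase (p : Fin N) : (((Finset.univ : Finset (Fin N)).erase p).card : ℝ) = N - 1 := by
  rw [Finset.card_erase_of_mem (Finset.mem_univ p), Finset.card_univ, Fintype.card_fin]
  have hN : 1 ≤ N := by have := p.2; omega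
  rw [Nat.cast_sub hN, Nat.cast_one]

theorem spin_norm (s : Sph N) : ‖(s : EN N)‖ = 1 := by simp

theorem sum_sq_erase (p : Fin N) (s : Sph N) :
    ∑ k ∈ Finset.univ.erase p, (s : EN N) k ^ 2 = 1 - (s : EN N) p ^ 2 := by
  have h1 : ∑ k, (s : EN N) k ^ 2 = 1 := by
    have h := spin_norm s
    have h2 : ‖(s : EN N)‖ ^ 2 = 1 := by rw [h, one_pow]
    rw [EuclideanSpace.norm_eq, Real.sq_sqrt (Finset.sum_nonneg fun i _ => by positivity)] at h2
    simpa only [Real.norm_eq_abs, sq_abs] using h2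
  rw [← Finset.add_sum_erase _ _ (Finset.mem_univ p)] at h1
  linarith

theorem cont_inner (u v : Tor L) :
    Continuous fun S : Conf N L => inner ℝ (S u : EN N) (S v : EN N) :=
  (cont_spin u).inner (cont_spin v)

/-- derivative of the score -/
theorem HD_Wk {p k : Fin N} (hpk : p ≠ k) (φ : Tor L → ℝ) (c : Tor L × Tor L → ℝ) :
    HD hpk φ (Wk c φ p k) (fun S => -∑ e, c e * (φ e.1 - φ e.2) ^ 2 *
      ((S e.1 : EN N) p * (S e.2 : EN N) p + (S e.1 : EN N) k * (S e.2 : EN N) k)) := by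
  unfold Wk
  refine (HD.sum Finset.univ fun e _ => ((((HD.coord_p e.1).mul (HD.coord_k e.2)).sub
    ((HD.coord_k e.1).mul (HD.coord_p e.2))).const_mul (φ e.1 - φ e.2)).const_mul
      (c e)).congr fun S => ?_
  rw [← Finset.sum_neg_distrib]
  refine Finset.sum_congr rfl fun e _ => ?_
  ring

section ward

variable (hN : N ≠ 0) {φ : Tor L → ℝ} {Λ : Finset (Tor L)}
    (hφ : ∀ x, x ∉ Λ → φ x = 0) (c : Tor L × Tor L → ℝ) (η : Conf N L) (p : Fin N)

include hN hφ

/-- first Ward identity -/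
theorem wardA {z : Tor L} (hz : φ z = 1) :
    ((N : ℝ) - 1) * ∫ S, (S z : EN N) p ∂(GM c Λ η) =
      -∫ S, inner ℝ (Wv c φ p S) (S z : EN N) ∂(GM c Λ η) := by
  have h1 : ∀ k ∈ (Finset.univ : Finset (Fin N)).erase p,
      ∫ S, (S z : EN N) p ∂(GM c Λ η) =
        -∫ S, (S z : EN N) k * Wk c φ p k S ∂(GM c Λ η) := by
    intro k hk
    have hpk : p ≠ k := (Finset.ne_of_mem_erase hk).symm
    refine ibp hN hpk hφ c η (cont_coord z k) (cont_coord z p) ?_
    refine (HD.coord_k z).congr fun S => ?_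
    rw [hz, one_mul]
  have h2 : ∫ S, inner ℝ (Wv c φ p S) (S z : EN N) ∂(GM c Λ η) =
      ∑ k ∈ (Finset.univ : Finset (Fin N)).erase p,
        ∫ S, (S z : EN N) k * Wk c φ p k S ∂(GM c Λ η) := by
    rw [← E_sum hN c Λ η _ (fun k S => (S z : EN N) k * Wk c φ p k S) (fun k => by fun_prop)]
    refine integral_congr_ae (Filter.Eventually.of_forall fun S => ?_)
    exact inner_Wv c φ p S z
  rw [h2, ← card_erase p, ← nsmul_eq_mul, ← Finset.sum_const, ← Finset.sum_neg_distrib]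
  exact Finset.sum_congr rfl h1

/-- second Ward identity -/
theorem wardB {z : Tor L} (hz : φ z = 1) :
    (N : ℝ) * ∫ S, (S z : EN N) p ^ 2 ∂(GM c Λ η) - 1 =
      -∫ S, (S z : EN N) p * inner ℝ (Wv c φ p S) (S z : EN N) ∂(GM c Λ η) := by
  have hprob := GM_prob hN c Λ η
  have h1 : ∀ k ∈ (Finset.univ : Finset (Fin N)).erase p,
      ∫ S, (S z : EN N) p ^ 2 ∂(GM c Λ η) - ∫ S, (S z : EN N) k ^ 2 ∂(GM c Λ η) =
        -∫ S, (S z : EN N) p * (S z : EN N) k * Wk c φ p k S ∂(GM c Λ η) := by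
    intro k hk
    have hpk : p ≠ k := (Finset.ne_of_mem_erase hk).symm
    rw [← E_sub hN c Λ η (fun S => (S z : EN N) p ^ 2) (fun S => (S z : EN N) k ^ 2)
      (by fun_prop) (by fun_prop)]
    refine ibp hN hpk hφ c η (F := fun S => (S z : EN N) p * (S z : EN N) k)
      (by fun_prop) (by fun_prop) ?_
    refine ((HD.coord_p z).mul (HD.coord_k z)).congr fun S => ?_
    rw [hz]
    ring
  have h2 : ∫ S, (S z : EN N) p * inner ℝ (Wv c φ p S) (S z : EN N) ∂(GM c Λ η) =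
      ∑ k ∈ (Finset.univ : Finset (Fin N)).erase p,
        ∫ S, (S z : EN N) p * (S z : EN N) k * Wk c φ p k S ∂(GM c Λ η) := by
    rw [← E_sum hN c Λ η _ (fun k S => (S z : EN N) p * (S z : EN N) k * Wk c φ p k S)
      (fun k => by fun_prop)]
    refine integral_congr_ae (Filter.Eventually.of_forall fun S => ?_)
    simp only
    rw [inner_Wv, Finset.mul_sum]
    exact Finset.sum_congr rfl fun k _ => by ring
  have h3 : ∑ k ∈ (Finset.univ : Finset (Fin N)).erase p,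
      ∫ S, (S z : EN N) k ^ 2 ∂(GM c Λ η) = 1 - ∫ S, (S z : EN N) p ^ 2 ∂(GM c Λ η) := by
    rw [← E_sum hN c Λ η _ (fun k S => (S z : EN N) k ^ 2) (fun k => by fun_prop)]
    have h4 : (∫ S, ((1 : ℝ) - (S z : EN N) p ^ 2) ∂(GM c Λ η)) =
        1 - ∫ S, (S z : EN N) p ^ 2 ∂(GM c Λ η) := by
      rw [E_sub hN c Λ η (fun _ => (1 : ℝ)) (fun S => (S z : EN N) p ^ 2) (by fun_prop)
        (by fun_prop), E_one hN]
    rw [← h4]
    refine integral_congr_ae (Filter.Eventually.of_forall fun S => ?_)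
    exact sum_sq_erase p (S z)
  have h5 := Finset.sum_congr rfl h1
  rw [Finset.sum_sub_distrib, Finset.sum_const, nsmul_eq_mul, card_erase, h3,
    Finset.sum_neg_distrib, ← h2] at h5
  linarith

/-- third Ward identity -/
theorem wardC :
    ∫ S, ‖Wv c φ p S‖ ^ 2 ∂(GM c Λ η) =
      ∑ e, c e * (φ e.1 - φ e.2) ^ 2 * (((N : ℝ) - 2) *
        (∫ S, (S e.1 : EN N) p * (S e.2 : EN N) p ∂(GM c Λ η)) +
        ∫ S, inner ℝ (S e.1 : EN N) (S e.2 : EN N) ∂(GM c Λ η)) := by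
  have hcc : ∀ (k : Fin N) (e : Tor L × Tor L), Integrable (fun S : Conf N L =>
      (S e.1 : EN N) k * (S e.2 : EN N) k) (GM c Λ η) := fun k e =>
    intC hN c Λ η (by fun_prop)
  have h1 : ∀ k ∈ (Finset.univ : Finset (Fin N)).erase p,
      ∫ S, Wk c φ p k S * Wk c φ p k S ∂(GM c Λ η) =
        ∑ e, c e * (φ e.1 - φ e.2) ^ 2 *
          (∫ S, (S e.1 : EN N) p * (S e.2 : EN N) p ∂(GM c Λ η) +
            ∫ S, (S e.1 : EN N) k * (S e.2 : EN N) k ∂(GM c Λ η)) := by
    intro k hk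
    have hpk : p ≠ k := (Finset.ne_of_mem_erase hk).symm
    have hcont : Continuous (fun S : Conf N L => ∑ e, c e * (φ e.1 - φ e.2) ^ 2 *
        ((S e.1 : EN N) p * (S e.2 : EN N) p + (S e.1 : EN N) k * (S e.2 : EN N) k)) := by
      fun_prop
    have h := ibp hN hpk hφ c η (F' := fun S => -∑ e, c e * (φ e.1 - φ e.2) ^ 2 *
        ((S e.1 : EN N) p * (S e.2 : EN N) p + (S e.1 : EN N) k * (S e.2 : EN N) k))
        (cont_Wk c φ p k) (by fun_prop) (HD_Wk hpk φ c)
    rw [integral_neg, neg_inj] at h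
    rw [← h, E_sum hN c Λ η _ (fun e S => c e * (φ e.1 - φ e.2) ^ 2 *
        ((S e.1 : EN N) p * (S e.2 : EN N) p + (S e.1 : EN N) k * (S e.2 : EN N) k))
        (fun e => by fun_prop)]
    refine Finset.sum_congr rfl fun e _ => ?_
    rw [integral_const_mul, integral_add (hcc p e) (hcc k e)]
  have h2 : ∫ S, ‖Wv c φ p S‖ ^ 2 ∂(GM c Λ η) =
      ∑ k ∈ (Finset.univ : Finset (Fin N)).erase p,
        ∫ S, Wk c φ p k S * Wk c φ p k S ∂(GM c Λ η) := by
    rw [← E_sum hN c Λ η _ (fun k S => Wk c φ p k S * Wk c φ p k S) (fun k => by fun_prop)]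
    refine integral_congr_ae (Filter.Eventually.of_forall fun S => ?_)
    exact norm_sq_Wv c φ p S
  rw [h2, Finset.sum_congr rfl h1, Finset.sum_comm]
  refine Finset.sum_congr rfl fun e _ => ?_
  rw [← Finset.mul_sum, Finset.sum_add_distrib, Finset.sum_const, nsmul_eq_mul, card_erase]
  have h3 : ∫ S, inner ℝ (S e.1 : EN N) (S e.2 : EN N) ∂(GM c Λ η) =
      ∫ S, (S e.1 : EN N) p * (S e.2 : EN N) p ∂(GM c Λ η) +
        ∑ k ∈ (Finset.univ : Finset (Fin N)).erase p,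
          ∫ S, (S e.1 : EN N) k * (S e.2 : EN N) k ∂(GM c Λ η) := by
    rw [Finset.add_sum_erase _ (fun k => ∫ S, (S e.1 : EN N) k * (S e.2 : EN N) k ∂(GM c Λ η))
      (Finset.mem_univ p), ← E_sum hN c Λ η _ (fun k S => (S e.1 : EN N) k * (S e.2 : EN N) k)
      (fun k => by fun_prop)]
    refine integral_congr_ae (Filter.Eventually.of_forall fun S => ?_)
    exact inner_sum' _ _
  rw [h3]
  ring

end ward

end Pool.Agent.H12.LN
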